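import Mathlib

/-! Arithmetic of the bounds. -/

namespace Run7.h823.Circ

/-- the value of the formula -/
def F (n : ℕ) : ℕ := (n - 1).choose 2 + 1 - (n - 1) / 2

/-- first bound, for `K ≤ 7 n / 16` -/
theorem arith_one {n K : ℤ} (hn : 30 ≤ n) (hK : 3 ≤ K) (h : 16 * K ≤ 7 * n) :
    9 * K * (K + 2) * (n - 2) ^ 2 <
      2 * (3 * (K - 1) * n * (n - 1) * (n - 2) + 9 * n * (K ^ 2 + 2) - K * (K + 2) * n * (n - 1)) := by
  -- concave in `K`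
  obtain ⟨x, rfl⟩ : ∃ x, n = x + 30 := ⟨n - 30, by ring⟩
  obtain ⟨y, rfl⟩ : ∃ y, K = y + 3 := ⟨K - 3, by ring⟩
  have hx : 0 ≤ x := by linarith
  have hy : 0 ≤ y := by linarith
  have hz : 0 ≤ 7 * (x + 30) - 16 * (y + 3) := by linarith
  have h1 : 0 ≤ y * (7 * (x + 30) - 16 * (y + 3)) := mul_nonneg hy hz
  have h2 : 0 ≤ y * (7 * (x + 30) - 16 * (y + 3)) * x := mul_nonneg h1 hx
  have h3 : 0 ≤ y * (7 * (x + 30) - 16 * (y + 3)) * x ^ 2 := by positivity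
  have h4 : 0 ≤ y * x ^ 3 := by positivity
  have h5 : 0 ≤ y * x ^ 2 := by positivity
  have h6 : 0 ≤ y * x := by positivity
  nlinarith [h1, h2, h3, h4, h5, h6, pow_nonneg hx 2, pow_nonneg hx 3]

/-- second bound, for `K ≥ 7 n / 16` -/
theorem arith_two {n K : ℤ} (hn : 30 ≤ n) (hm : K + 2 ≤ n) (h : 7 * n ≤ 16 * K) :
    6 * (n - 2) ^ 2 < 12 + (n - K) * K * (4 * K - 7 - (n - K)) := by
  obtain ⟨m, rfl⟩ : ∃ m, n = K + (m + 2) := ⟨n - K - 2, by ring⟩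
  have hm0 : 0 ≤ m := by linarith
  have hz : 0 ≤ 9 * K - 7 * (m + 2) := by linarith
  have hK : 14 ≤ K := by linarith
  have h1 : 0 ≤ m * (9 * K - 7 * (m + 2)) := mul_nonneg hm0 hz
  have h2 : 0 ≤ m * (9 * K - 7 * (m + 2)) * (K - 14) := mul_nonneg h1 (by linarith)
  have h3 : 0 ≤ (9 * K - 7 * (m + 2)) * (K - 14) := mul_nonneg hz (by linarith)
  have h4 : 0 ≤ m * (K - 14) := mul_nonneg hm0 (by linarith)
  have h5 : 0 ≤ m * (K - 14) ^ 2 := by positivity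
  nlinarith [h1, h2, h3, h4, h5]

/-- the finite check, as a Boolean -/
def okb (n K : ℕ) : Bool :=
  decide (9 * (K : ℤ) * (K + 2) * ((F n : ℤ) - 1) <
      3 * ((K : ℤ) - 1) * n * (n - 1) * (n - 2) + 9 * n * ((K : ℤ) ^ 2 + 2) -
      (K : ℤ) * (K + 2) * n * (n - 1)) ||
  decide ((F n : ℤ) - 1 < 1 + (K.choose 2 * (n - K) : ℕ) - ((n - K) * (K / 2) : ℕ) -
      ((n - K).choose 2 * (K / 2) : ℕ)) ||
  decide (3 * ((F n : ℤ) - 1) < 3 + 2 * (K.choose 2 * (n - K) : ℕ) - 2 * ((n - K) * (K / 2) : ℕ) -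
      ((n - K).choose 2 * (K / 2) : ℕ))

/-- the pairs to be checked -/
def prem (n K : ℕ) : Bool :=
  decide (3 ≤ K) && decide (K < n - 1) && (decide (19 ≤ n) || decide (n = 5) ||
    (decide (n = 15) && decide (K ≠ 6) && decide (K ≠ 7)) ||
    (decide (n = 16) && decide (K ≠ 7) && decide (K ≠ 8)) ||
    (decide (n = 17) && decide (K ≠ 8)) || (decide (n = 18) && decide (K ≠ 8)))

theorem arith_check : ∀ n, n < 30 → ∀ K, K < 30 → (!prem n K || okb n K) = true := by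
  decide +kernel

theorem arith_fin (n : ℕ) (hn : n < 30) (K : ℕ) (hK : K < n - 1) (hK3 : 3 ≤ K)
    (h : 19 ≤ n ∨ n = 5 ∨ (n = 15 ∧ K ≠ 6 ∧ K ≠ 7) ∨ (n = 16 ∧ K ≠ 7 ∧ K ≠ 8) ∨
      (n = 17 ∧ K ≠ 8) ∨ (n = 18 ∧ K ≠ 8)) :
    (9 * (K : ℤ) * (K + 2) * ((F n : ℤ) - 1) <
      3 * ((K : ℤ) - 1) * n * (n - 1) * (n - 2) + 9 * n * ((K : ℤ) ^ 2 + 2) -
      (K : ℤ) * (K + 2) * n * (n - 1)) ∨
    ((F n : ℤ) - 1 < 1 + (K.choose 2 * (n - K) : ℕ) - ((n - K) * (K / 2) : ℕ) -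
      ((n - K).choose 2 * (K / 2) : ℕ)) ∨
    (3 * ((F n : ℤ) - 1) < 3 + 2 * (K.choose 2 * (n - K) : ℕ) - 2 * ((n - K) * (K / 2) : ℕ) -
      ((n - K).choose 2 * (K / 2) : ℕ)) := by
  have h1 := arith_check n hn K (by omega)
  have h2 : prem n K = true := by
    simp only [prem, Bool.and_eq_true, Bool.or_eq_true, decide_eq_true_eq]
    omega
  rw [h2] at h1
  simp only [okb, Bool.not_true, Bool.false_or, Bool.or_eq_true, decide_eq_true_eq] at h1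
  rcases h1 with (h1 | h1) | h1
  · exact Or.inl h1
  · exact Or.inr (Or.inl h1)
  · exact Or.inr (Or.inr h1)

end Run7.h823.Circ
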