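import Mathlib
import Pool.Agent.Helper543.Melchior

/-! Circles and lines through the points of a finite plane set, and Melchior's inequality after an
inversion. -/

namespace Run7.h823.Circ

open Finset Pool.Agent.Helper543.Melchior

noncomputable section

open scoped Classical

/-- squared length -/
def nq (a : Pt) : ℝ := a.1 ^ 2 + a.2 ^ 2

/-- inversion with centre `p` (the centre is left fixed) -/
def inv (p x : Pt) : Pt :=
  (p.1 + (x.1 - p.1) / nq (x - p), p.2 + (x.2 - p.2) / nq (x - p))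

/-- vanishes when the four points lie on one circle or one line -/
def D (p a b c : Pt) : ℝ := cr p a b * nq (c - p) + cr p b c * nq (a - p) + cr p c a * nq (b - p)

lemma nq_pos {a p : Pt} (h : a ≠ p) : 0 < nq (a - p) := by
  unfold nq
  by_contra hcon
  have h1 : (a - p).1 ^ 2 = 0 := by nlinarith [sq_nonneg (a - p).1, sq_nonneg (a - p).2]
  have h2 : (a - p).2 ^ 2 = 0 := by nlinarith [sq_nonneg (a - p).1, sq_nonneg (a - p).2]
  apply h
  have h1' := pow_eq_zero_iff (n := 2) (by norm_num) |>.1 h1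
  have h2' := pow_eq_zero_iff (n := 2) (by norm_num) |>.1 h2
  simp only [Prod.fst_sub, Prod.snd_sub] at h1' h2'
  ext <;> linarith

lemma inv_self (p : Pt) : inv p p = p := by
  simp [inv]

lemma nq_inv {p x : Pt} (h : x ≠ p) : nq (inv p x - p) = 1 / nq (x - p) := by
  have h0 := nq_pos h
  have : nq (x - p) = (x.1 - p.1) ^ 2 + (x.2 - p.2) ^ 2 := by simp [nq]
  simp only [inv]
  rw [nq]
  simp only [Prod.fst_sub, Prod.snd_sub]
  field_simp
  rw [this]; ring

lemma inv_ne {p x : Pt} (h : x ≠ p) : inv p x ≠ p := by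
  intro hcon
  have h1 := nq_inv h
  rw [hcon] at h1
  have h0 := nq_pos h
  have : nq (p - p) = 0 := by simp [nq]
  rw [this] at h1
  have h2 : 0 < 1 / nq (x - p) := by positivity
  linarith

lemma inv_inv (p x : Pt) : inv p (inv p x) = x := by
  by_cases h : x = p
  · subst h; rw [inv_self, inv_self]
  · have h0 := nq_pos h
    have h1 := nq_inv h
    have e1 : (inv p x).1 - p.1 = (x.1 - p.1) / nq (x - p) := by simp [inv]
    have e2 : (inv p x).2 - p.2 = (x.2 - p.2) / nq (x - p) := by simp [inv]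
    have : inv p (inv p x) = (p.1 + ((inv p x).1 - p.1) / nq (inv p x - p),
      p.2 + ((inv p x).2 - p.2) / nq (inv p x - p)) := rfl
    rw [this, h1, e1, e2]
    ext <;> field_simp <;> ring

lemma inv_injective (p : Pt) : Function.Injective (inv p) := by
  intro x y h
  have := congrArg (inv p) h
  rwa [inv_inv, inv_inv] at this

lemma cr_inv {p a b c : Pt} (ha : a ≠ p) (hb : b ≠ p) (hc : c ≠ p) :
    cr (inv p a) (inv p b) (inv p c) * (nq (a - p) * nq (b - p) * nq (c - p)) = D p a b c := by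
  have h1 := nq_pos ha
  have h2 := nq_pos hb
  have h3 := nq_pos hc
  simp only [D, cr, inv]
  field_simp
  ring

lemma cr_inv_eq_zero {p a b c : Pt} (ha : a ≠ p) (hb : b ≠ p) (hc : c ≠ p) :
    cr (inv p a) (inv p b) (inv p c) = 0 ↔ D p a b c = 0 := by
  have h1 := nq_pos ha
  have h2 := nq_pos hb
  have h3 := nq_pos hc
  rw [← cr_inv ha hb hc, mul_eq_zero]
  constructor
  · intro h; exact Or.inl h
  · rintro (h | h)
    · exact h
    · exact absurd h (by positivity)

lemma cr_inv_p {p a b : Pt} (ha : a ≠ p) (hb : b ≠ p) :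
    cr p (inv p a) (inv p b) * (nq (a - p) * nq (b - p)) = cr p a b := by
  have h1 := nq_pos ha
  have h2 := nq_pos hb
  simp only [cr, inv]
  field_simp
  ring

lemma cr_inv_p_eq_zero {p a b : Pt} (ha : a ≠ p) (hb : b ≠ p) :
    cr p (inv p a) (inv p b) = 0 ↔ cr p a b = 0 := by
  have h1 := nq_pos ha
  have h2 := nq_pos hb
  rw [← cr_inv_p ha hb, mul_eq_zero]
  constructor
  · intro h; exact Or.inl h
  · rintro (h | h)
    · exact h
    · exact absurd h (by positivity)

lemma cr_rot (a b c : Pt) : cr a b c = cr b c a := by simp only [cr]; ring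

lemma D_swap12 (a b c d : Pt) : D b a c d = - D a b c d := by
  simp only [D, cr, nq, Prod.fst_sub, Prod.snd_sub]; ring

lemma D_swap23 (a b c d : Pt) : D a c b d = - D a b c d := by
  simp only [D, cr, nq, Prod.fst_sub, Prod.snd_sub]; ring

lemma D_swap34 (a b c d : Pt) : D a b d c = - D a b c d := by
  simp only [D, cr, nq, Prod.fst_sub, Prod.snd_sub]; ring

lemma D_self1 (a b c : Pt) : D a b c a = 0 := by
  simp only [D, cr, nq, Prod.fst_sub, Prod.snd_sub]; ring

lemma D_self2 (a b c : Pt) : D a b c b = 0 := by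
  simp only [D, cr, nq, Prod.fst_sub, Prod.snd_sub]; ring

lemma D_self3 (a b c : Pt) : D a b c c = 0 := by
  simp only [D, cr, nq, Prod.fst_sub, Prod.snd_sub]; ring

lemma cr_iff {a b x y : Pt} (z : Pt) (hab : a ≠ b) (hx : cr a b x = 0)
    (hy : cr a b y = 0) (hxy : x ≠ y) : cr x y z = 0 ↔ cr a b z = 0 := by
  have h := lineOf_eq (S := {z}) hab hx hy hxy
  constructor
  · intro h1
    have h2 : z ∈ lineOf {z} x y := mem_lineOf.2 ⟨by simp, h1⟩
    rw [h] at h2
    exact (mem_lineOf.1 h2).2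
  · intro h1
    have h2 : z ∈ lineOf {z} a b := mem_lineOf.2 ⟨by simp, h1⟩
    rw [← h] at h2
    exact (mem_lineOf.1 h2).2

/-- replacing two of the three points -/
lemma D_iff_one {a b c y z : Pt} (d : Pt) (hab : a ≠ b) (hac : a ≠ c) (hbc : b ≠ c)
    (hya : y ≠ a) (hza : z ≠ a) (hyz : y ≠ z) (hy : D a b c y = 0) (hz : D a b c z = 0) :
    D a y z d = 0 ↔ D a b c d = 0 := by
  by_cases hd : d = a
  · subst hd; rw [D_self1, D_self1]
  · rw [← cr_inv_eq_zero hya hza hd, ← cr_inv_eq_zero hab.symm hac.symm hd]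
    apply cr_iff
    · exact fun h => hbc (inv_injective a h)
    · exact (cr_inv_eq_zero hab.symm hac.symm hya).2 hy
    · exact (cr_inv_eq_zero hab.symm hac.symm hza).2 hz
    · exact fun h => hyz (inv_injective a h)

lemma D_zero_swap12 {a b c d : Pt} : D b a c d = 0 ↔ D a b c d = 0 := by
  rw [D_swap12]; simp

lemma D_zero_swap23 {a b c d : Pt} : D a c b d = 0 ↔ D a b c d = 0 := by
  rw [D_swap23]; simp

lemma D_zero_swap34 {a b c d : Pt} : D a b d c = 0 ↔ D a b c d = 0 := by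
  rw [D_swap34]; simp

lemma D_iff {a b c x y z : Pt} (d : Pt) (hab : a ≠ b) (hac : a ≠ c) (hbc : b ≠ c)
    (hxy : x ≠ y) (hxz : x ≠ z) (hyz : y ≠ z) (hx : D a b c x = 0) (hy : D a b c y = 0)
    (hz : D a b c z = 0) : D x y z d = 0 ↔ D a b c d = 0 := by
  by_cases h1 : x = a
  · subst h1
    exact D_iff_one d hab hac hbc hxy.symm hxz.symm hyz hy hz
  by_cases h2 : x = b
  · subst h2
    rw [← D_zero_swap12 (a := a)]
    exact D_iff_one d hab.symm hbc hac hxy.symm hxz.symm hyz (D_zero_swap12.2 hy)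
      (D_zero_swap12.2 hz)
  -- replace `c` by `x`
  have e1 : ∀ d, D a b x d = 0 ↔ D a b c d = 0 := fun d =>
    D_iff_one d hab hac hbc hab.symm h1 (Ne.symm h2) (D_self2 _ _ _) hx
  have e2 : ∀ d, D x a b d = 0 ↔ D a b x d = 0 := by
    intro d
    rw [D_zero_swap12, D_zero_swap23]
  rw [D_iff_one d h1 h2 hab hxy.symm hxz.symm hyz
    ((e2 _).2 ((e1 _).2 hy)) ((e2 _).2 ((e1 _).2 hz)), e2, e1]

lemma D_of_collinear {a b c : Pt} (d : Pt) (hab : a ≠ b) (hac : a ≠ c) (hbc : b ≠ c)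
    (h : cr a b c = 0) : D a b c d = 0 ↔ cr a b d = 0 := by
  obtain ⟨s, hs1, hs2⟩ := exists_param hab h
  have h0 := nq_pos hab.symm
  have e : D a b c d = s * (1 - s) * nq (b - a) * cr a b d := by
    have e1 : c.1 = a.1 + s * (b.1 - a.1) := by linarith
    have e2 : c.2 = a.2 + s * (b.2 - a.2) := by linarith
    simp only [D, cr, nq, Prod.fst_sub, Prod.snd_sub, e1, e2]
    ring
  have hs0 : s ≠ 0 := by
    rintro rfl
    apply hac
    ext <;> linarith
  have hs3 : 1 - s ≠ 0 := by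
    intro hs
    have : s = 1 := by linarith
    subst this
    apply hbc
    ext <;> linarith
  rw [e, mul_eq_zero]
  constructor
  · rintro (h | h)
    · exact absurd h (by positivity)
    · exact h
  · intro h; exact Or.inr h

/-- the points of `P` on the circle or line through `a`, `b`, `c` -/
def blk (P : Finset Pt) (a b c : Pt) : Finset Pt := P.filter (fun d => D a b c d = 0)

/-- traces on `P` of the circles through at least three points of `P` -/
def circs (P : Finset Pt) : Finset (Finset Pt) :=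
  P.powerset.filter (fun G => ∃ a ∈ P, ∃ b ∈ P, ∃ c ∈ P, cr a b c ≠ 0 ∧ G = blk P a b c)

/-- traces on `P` of the lines through at least three points of `P` -/
def lins (P : Finset Pt) : Finset (Finset Pt) := (lines P).filter (fun G => 3 ≤ G.card)

/-- circles and lines through at least three points of `P` -/
def blocks (P : Finset Pt) : Finset (Finset Pt) := circs P ∪ lins P

lemma mem_blk {P : Finset Pt} {a b c d : Pt} : d ∈ blk P a b c ↔ d ∈ P ∧ D a b c d = 0 := by
  simp [blk]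

lemma mem_circs {P G : Finset Pt} : G ∈ circs P ↔
    ∃ a ∈ P, ∃ b ∈ P, ∃ c ∈ P, cr a b c ≠ 0 ∧ G = blk P a b c := by
  simp only [circs, mem_filter, mem_powerset, and_iff_right_iff_imp]
  rintro ⟨a, _, b, _, c, _, _, rfl⟩
  exact filter_subset _ _

lemma ne_of_cr {a b c : Pt} (h : cr a b c ≠ 0) : a ≠ b ∧ a ≠ c ∧ b ≠ c := by
  refine ⟨?_, ?_, ?_⟩
  · rintro rfl; apply h; simp only [cr]; ring
  · rintro rfl; exact h (cr_self_left _ _)
  · rintro rfl; exact h (cr_self_right _ _)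

lemma blk_eq {P : Finset Pt} {a b c x y z : Pt} (hab : a ≠ b) (hac : a ≠ c) (hbc : b ≠ c)
    (hxy : x ≠ y) (hxz : x ≠ z) (hyz : y ≠ z) (hx : x ∈ blk P a b c) (hy : y ∈ blk P a b c)
    (hz : z ∈ blk P a b c) : blk P a b c = blk P x y z := by
  ext d
  rw [mem_blk, mem_blk, D_iff d hab hac hbc hxy hxz hyz (mem_blk.1 hx).2 (mem_blk.1 hy).2
    (mem_blk.1 hz).2]

lemma blk_of_collinear {P : Finset Pt} {a b c : Pt} (hab : a ≠ b) (hac : a ≠ c) (hbc : b ≠ c)
    (h : cr a b c = 0) : blk P a b c = lineOf P a b := by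
  ext d
  rw [mem_blk, mem_lineOf, D_of_collinear d hab hac hbc h]

lemma block_subset {P G : Finset Pt} (hG : G ∈ blocks P) : G ⊆ P := by
  rcases mem_union.1 hG with h | h
  · exact (mem_powerset.1 (mem_filter.1 h).1)
  · exact line_subset (mem_filter.1 h).1

lemma circ_mem_blocks {P G : Finset Pt} (hG : G ∈ circs P) : G ∈ blocks P :=
  mem_union.2 (Or.inl hG)

lemma lin_mem_blocks {P G : Finset Pt} (hG : G ∈ lins P) : G ∈ blocks P :=
  mem_union.2 (Or.inr hG)

lemma block_eq_blk {P G : Finset Pt} (hG : G ∈ blocks P) {x y z : Pt} (hx : x ∈ G) (hy : y ∈ G)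
    (hz : z ∈ G) (hxy : x ≠ y) (hxz : x ≠ z) (hyz : y ≠ z) : G = blk P x y z := by
  rcases mem_union.1 hG with h | h
  · obtain ⟨a, _, b, _, c, _, hne, rfl⟩ := mem_circs.1 h
    obtain ⟨h1, h2, h3⟩ := ne_of_cr hne
    exact blk_eq h1 h2 h3 hxy hxz hyz hx hy hz
  · have h1 := eq_lineOf (mem_filter.1 h).1 hx hy hxy
    have h2 : cr x y z = 0 := by
      rw [h1] at hz; exact (mem_lineOf.1 hz).2
    rw [blk_of_collinear hxy hxz hyz h2]
    exact h1

lemma self_mem_blk {P : Finset Pt} {a b c : Pt} (ha : a ∈ P) : a ∈ blk P a b c :=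
  mem_blk.2 ⟨ha, D_self1 _ _ _⟩

lemma self_mem_blk2 {P : Finset Pt} {a b c : Pt} (hb : b ∈ P) : b ∈ blk P a b c :=
  mem_blk.2 ⟨hb, D_self2 _ _ _⟩

lemma self_mem_blk3 {P : Finset Pt} {a b c : Pt} (hc : c ∈ P) : c ∈ blk P a b c :=
  mem_blk.2 ⟨hc, D_self3 _ _ _⟩

lemma three_le_card {G : Finset Pt} {a b c : Pt} (ha : a ∈ G) (hb : b ∈ G) (hc : c ∈ G)
    (hab : a ≠ b) (hac : a ≠ c) (hbc : b ≠ c) : 3 ≤ G.card := by
  have : ({a, b, c} : Finset Pt) ⊆ G := by
    intro x hx
    simp only [mem_insert, mem_singleton] at hx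
    rcases hx with rfl | rfl | rfl <;> assumption
  have h2 := card_le_card this
  rwa [card_eq_three.2 ⟨a, b, c, hab, hac, hbc, rfl⟩] at h2

lemma blk_mem_blocks {P : Finset Pt} {a b c : Pt} (ha : a ∈ P) (hb : b ∈ P) (hc : c ∈ P)
    (hab : a ≠ b) (hac : a ≠ c) (hbc : b ≠ c) : blk P a b c ∈ blocks P := by
  by_cases h : cr a b c = 0
  · apply lin_mem_blocks
    rw [lins, mem_filter]
    refine ⟨?_, three_le_card (self_mem_blk ha) (self_mem_blk2 hb) (self_mem_blk3 hc) hab hac hbc⟩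
    rw [blk_of_collinear hab hac hbc h]
    exact lineOf_mem_lines ha hb hab
  · exact circ_mem_blocks (mem_circs.2 ⟨a, ha, b, hb, c, hc, h, rfl⟩)

lemma three_le_block {P G : Finset Pt} (hG : G ∈ blocks P) : 3 ≤ G.card := by
  rcases mem_union.1 hG with h | h
  · obtain ⟨a, ha, b, hb, c, hc, hne, rfl⟩ := mem_circs.1 h
    obtain ⟨h1, h2, h3⟩ := ne_of_cr hne
    exact three_le_card (self_mem_blk ha) (self_mem_blk2 hb) (self_mem_blk3 hc) h1 h2 h3
  · exact (mem_filter.1 h).2

lemma circs_disjoint_lins (P : Finset Pt) : Disjoint (circs P) (lins P) := by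
  rw [disjoint_left]
  intro G h1 h2
  obtain ⟨a, ha, b, hb, c, hc, hne, rfl⟩ := mem_circs.1 h1
  obtain ⟨hab, _, _⟩ := ne_of_cr hne
  have h3 := eq_lineOf (mem_filter.1 h2).1 (self_mem_blk ha) (self_mem_blk2 hb) hab
  have h4 : c ∈ blk P a b c := self_mem_blk3 hc
  rw [h3] at h4
  exact hne (mem_lineOf.1 h4).2

/-- exchanging points in a block: `z` is collinear with `x`, `y` when the block is a line -/
lemma lin_cr {P G : Finset Pt} (hG : G ∈ lines P) {x y z : Pt} (hx : x ∈ G) (hy : y ∈ G)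
    (hz : z ∈ G) : cr x y z = 0 := by
  by_cases hxy : x = y
  · subst hxy; simp only [cr]; ring
  · have h := eq_lineOf hG hx hy hxy
    rw [h] at hz
    exact (mem_lineOf.1 hz).2

lemma circ_cr {P G : Finset Pt} (hG : G ∈ circs P) {x y z : Pt} (hx : x ∈ G) (hy : y ∈ G)
    (hz : z ∈ G) (hxy : x ≠ y) (hxz : x ≠ z) (hyz : y ≠ z) : cr x y z ≠ 0 := by
  intro h
  have h1 := block_eq_blk (circ_mem_blocks hG) hx hy hz hxy hxz hyz
  rw [blk_of_collinear hxy hxz hyz h] at h1
  have h2 : G ∈ lins P := by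
    rw [lins, mem_filter]
    refine ⟨?_, three_le_block (circ_mem_blocks hG)⟩
    rw [h1]
    exact lineOf_mem_lines (block_subset (circ_mem_blocks hG) hx)
      (block_subset (circ_mem_blocks hG) hy) hxy
  exact (disjoint_left.1 (circs_disjoint_lins P)) hG h2

lemma blk_mem_circs {P : Finset Pt} {a b c : Pt} (ha : a ∈ P) (hb : b ∈ P) (hc : c ∈ P)
    (h : cr a b c ≠ 0) : blk P a b c ∈ circs P :=
  mem_circs.2 ⟨a, ha, b, hb, c, hc, h, rfl⟩

/-! ### the picture inverted at a point of the set -/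

lemma exists_two_ne {G : Finset Pt} {p : Pt} (hp : p ∈ G) (h3 : 3 ≤ G.card) :
    ∃ a ∈ G, ∃ b ∈ G, a ≠ p ∧ b ≠ p ∧ a ≠ b := by
  have h : 1 < (G.erase p).card := by rw [card_erase_of_mem hp]; omega
  obtain ⟨a, ha, b, hb, hab⟩ := one_lt_card.1 h
  rw [mem_erase] at ha hb
  exact ⟨a, ha.2, b, hb.2, ha.1, hb.1, hab⟩

lemma line_inv {P : Finset Pt} {p a b : Pt} (ha : a ≠ p) (hb : b ≠ p) :
    lineOf ((P.erase p).image (inv p)) (inv p a) (inv p b) =
      ((blk P p a b).erase p).image (inv p) := by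
  ext z
  simp only [mem_lineOf, mem_image, mem_erase, mem_blk]
  constructor
  · rintro ⟨⟨d, ⟨h1, h2⟩, rfl⟩, h3⟩
    exact ⟨d, ⟨h1, h2, (cr_inv_eq_zero ha hb h1).1 h3⟩, rfl⟩
  · rintro ⟨d, ⟨h1, h2, h3⟩, rfl⟩
    exact ⟨⟨d, ⟨h1, h2⟩, rfl⟩, (cr_inv_eq_zero ha hb h1).2 h3⟩

lemma erase_image_inj {p : Pt} {G H : Finset Pt} (hG : p ∈ G) (hH : p ∈ H)
    (h : (G.erase p).image (inv p) = (H.erase p).image (inv p)) : G = H := by
  have h1 := image_injective (inv_injective p) h
  rw [← insert_erase hG, ← insert_erase hH, h1]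

lemma card_erase_image {p : Pt} {G : Finset Pt} (hG : p ∈ G) :
    ((G.erase p).image (inv p)).card = G.card - 1 := by
  rw [card_image_of_injective _ (inv_injective p), card_erase_of_mem hG]

theorem sum_inv {P : Finset Pt} {p : Pt} (hp : p ∈ P) (f : ℕ → ℤ) :
    ∑ L ∈ lines ((P.erase p).image (inv p)), f L.card =
      ∑ G ∈ (blocks P).filter (fun G => p ∈ G), f (G.card - 1) := by
  symm
  apply sum_bij (fun G _ => (G.erase p).image (inv p))
  · intro G hG
    rw [mem_filter] at hG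
    obtain ⟨a, ha, b, hb, hap, hbp, hab⟩ := exists_two_ne hG.2 (three_le_block hG.1)
    have h1 := block_eq_blk hG.1 hG.2 ha hb hap.symm hbp.symm hab
    rw [h1, ← line_inv hap hbp]
    apply lineOf_mem_lines
    · exact mem_image_of_mem _ (mem_erase.2 ⟨hap, block_subset hG.1 ha⟩)
    · exact mem_image_of_mem _ (mem_erase.2 ⟨hbp, block_subset hG.1 hb⟩)
    · exact fun h => hab (inv_injective p h)
  · intro G hG H hH h
    exact erase_image_inj (mem_filter.1 hG).2 (mem_filter.1 hH).2 h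
  · intro L hL
    obtain ⟨a', ha', b', hb', hab'⟩ := exists_two hL
    have h1 := eq_lineOf hL ha' hb' hab'
    have ha2 := line_subset hL ha'
    have hb2 := line_subset hL hb'
    rw [mem_image] at ha2 hb2
    obtain ⟨a, ha, rfl⟩ := ha2
    obtain ⟨b, hb, rfl⟩ := hb2
    rw [mem_erase] at ha hb
    have hab : a ≠ b := fun h => hab' (by rw [h])
    refine ⟨blk P p a b, ?_, ?_⟩
    · rw [mem_filter]
      exact ⟨blk_mem_blocks hp ha.2 hb.2 ha.1.symm hb.1.symm hab, self_mem_blk hp⟩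
    · rw [h1, line_inv ha.1 hb.1]
  · intro G hG
    rw [card_erase_image (mem_filter.1 hG).2]

lemma line_inv_circ {P : Finset Pt} {p a b : Pt} (ha : a ≠ p) (hb : b ≠ p) (h : cr p a b ≠ 0) :
    lineOf (P.image (inv p)) (inv p a) (inv p b) =
      ((blk P p a b).erase p).image (inv p) := by
  ext z
  simp only [mem_lineOf, mem_image, mem_erase, mem_blk]
  constructor
  · rintro ⟨⟨d, h1, rfl⟩, h3⟩
    have hd : d ≠ p := by
      rintro rfl
      rw [inv_self, ← cr_rot] at h3
      exact h ((cr_inv_p_eq_zero ha hb).1 h3)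
    exact ⟨d, ⟨hd, h1, (cr_inv_eq_zero ha hb hd).1 h3⟩, rfl⟩
  · rintro ⟨d, ⟨h1, h2, h3⟩, rfl⟩
    exact ⟨⟨d, h2, rfl⟩, (cr_inv_eq_zero ha hb h1).2 h3⟩

lemma line_inv_lin {P : Finset Pt} {p a : Pt} (ha : a ≠ p) :
    lineOf (P.image (inv p)) p (inv p a) = (lineOf P p a).image (inv p) := by
  ext z
  simp only [mem_lineOf, mem_image]
  constructor
  · rintro ⟨⟨d, h1, rfl⟩, h3⟩
    refine ⟨d, ⟨h1, ?_⟩, rfl⟩
    by_cases hd : d = p
    · subst hd; exact cr_self_left _ _
    · exact (cr_inv_p_eq_zero ha hd).1 h3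
  · rintro ⟨d, ⟨h1, h3⟩, rfl⟩
    refine ⟨⟨d, h1, rfl⟩, ?_⟩
    by_cases hd : d = p
    · subst hd; rw [inv_self]; exact cr_self_left _ _
    · exact (cr_inv_p_eq_zero ha hd).2 h3

theorem sum_inv_circ {P : Finset Pt} {p : Pt} (hp : p ∈ P) (f : ℕ → ℤ) :
    ∑ L ∈ (lines (P.image (inv p))).filter (fun L => p ∉ L), f L.card =
      ∑ G ∈ (circs P).filter (fun G => p ∈ G), f (G.card - 1) := by
  symm
  apply sum_bij (fun G _ => (G.erase p).image (inv p))
  · intro G hG
    rw [mem_filter] at hG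
    obtain ⟨a, ha, b, hb, hap, hbp, hab⟩ :=
      exists_two_ne hG.2 (three_le_block (circ_mem_blocks hG.1))
    have h1 := block_eq_blk (circ_mem_blocks hG.1) hG.2 ha hb hap.symm hbp.symm hab
    have h2 := circ_cr hG.1 hG.2 ha hb hap.symm hbp.symm hab
    rw [mem_filter]
    refine ⟨?_, ?_⟩
    · rw [h1, ← line_inv_circ hap hbp h2]
      apply lineOf_mem_lines
      · exact mem_image_of_mem _ (block_subset (circ_mem_blocks hG.1) ha)
      · exact mem_image_of_mem _ (block_subset (circ_mem_blocks hG.1) hb)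
      · exact fun h => hab (inv_injective p h)
    · rw [mem_image]
      rintro ⟨d, hd, h3⟩
      exact inv_ne (mem_erase.1 hd).1 h3
  · intro G hG H hH h
    exact erase_image_inj (mem_filter.1 hG).2 (mem_filter.1 hH).2 h
  · intro L hL
    rw [mem_filter] at hL
    obtain ⟨a', ha', b', hb', hab'⟩ := exists_two hL.1
    have h1 := eq_lineOf hL.1 ha' hb' hab'
    have ha2 := line_subset hL.1 ha'
    have hb2 := line_subset hL.1 hb'
    rw [mem_image] at ha2 hb2
    obtain ⟨a, ha, rfl⟩ := ha2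
    obtain ⟨b, hb, rfl⟩ := hb2
    have hap : a ≠ p := by
      rintro rfl; rw [inv_self] at ha'; exact hL.2 ha'
    have hbp : b ≠ p := by
      rintro rfl; rw [inv_self] at hb'; exact hL.2 hb'
    have hcr : cr p a b ≠ 0 := by
      intro h
      apply hL.2
      rw [h1, mem_lineOf]
      refine ⟨mem_image.2 ⟨p, hp, inv_self p⟩, ?_⟩
      rw [← cr_rot]
      exact (cr_inv_p_eq_zero hap hbp).2 h
    refine ⟨blk P p a b, ?_, ?_⟩
    · rw [mem_filter]
      exact ⟨blk_mem_circs hp ha hb hcr, self_mem_blk hp⟩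
    · rw [h1, line_inv_circ hap hbp hcr]
  · intro G hG
    rw [card_erase_image (mem_filter.1 hG).2]

theorem sum_inv_lin {P : Finset Pt} {p : Pt} (hp : p ∈ P) (f : ℕ → ℤ) :
    ∑ L ∈ (lines (P.image (inv p))).filter (fun L => p ∈ L), f L.card =
      ∑ G ∈ (lines P).filter (fun G => p ∈ G), f G.card := by
  symm
  have aux : ∀ L ∈ lines (P.image (inv p)), p ∈ L → ∃ a ∈ P, a ≠ p ∧
      L = (lineOf P p a).image (inv p) := by
    intro L hL hpL
    obtain ⟨a', ha', b', hb', hab'⟩ := exists_two hL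
    have key : ∀ x ∈ L, x ≠ p → ∃ a ∈ P, a ≠ p ∧ L = (lineOf P p a).image (inv p) := by
      intro x hx hxp
      have h2 := line_subset hL hx
      rw [mem_image] at h2
      obtain ⟨a, ha, rfl⟩ := h2
      have hap : a ≠ p := by
        rintro rfl; exact hxp (inv_self _)
      refine ⟨a, ha, hap, ?_⟩
      rw [← line_inv_lin hap]
      exact eq_lineOf hL hpL hx hxp.symm
    by_cases h : a' = p
    · exact key b' hb' (fun h' => hab' (by rw [h, h']))
    · exact key a' ha' h
  apply sum_bij (fun G _ => G.image (inv p))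
  · intro G hG
    rw [mem_filter] at hG ⊢
    obtain ⟨a, ha, hap⟩ : ∃ a ∈ G, a ≠ p := by
      obtain ⟨a, ha, b, hb, hab⟩ := exists_two hG.1
      by_cases h : a = p
      · exact ⟨b, hb, fun h' => hab (by rw [h, h'])⟩
      · exact ⟨a, ha, h⟩
    refine ⟨?_, mem_image.2 ⟨p, hG.2, inv_self p⟩⟩
    have h1 := eq_lineOf hG.1 hG.2 ha hap.symm
    rw [h1, ← line_inv_lin hap]
    apply lineOf_mem_lines
    · exact mem_image.2 ⟨p, hp, inv_self p⟩
    · exact mem_image_of_mem _ (line_subset hG.1 ha)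
    · exact (inv_ne hap).symm
  · intro G _ H _ h
    exact image_injective (inv_injective p) h
  · intro L hL
    rw [mem_filter] at hL
    obtain ⟨a, ha, hap, rfl⟩ := aux L hL.1 hL.2
    refine ⟨lineOf P p a, ?_, rfl⟩
    rw [mem_filter]
    exact ⟨lineOf_mem_lines hp ha hap.symm, mem_lineOf.2 ⟨hp, cr_self_left _ _⟩⟩
  · intro G _
    rw [card_image_of_injective _ (inv_injective p)]

theorem sum_lines_through {P : Finset Pt} {p : Pt} (hp : p ∈ P) :
    ∑ G ∈ (lines P).filter (fun G => p ∈ G), ((G.card : ℤ) - 1) = (P.card : ℤ) - 1 := by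
  have h1 : (P.erase p).card = ∑ G ∈ (lines P).filter (fun G => p ∈ G), (G.erase p).card := by
    rw [card_eq_sum_card_fiberwise (f := fun a => lineOf P p a)
      (t := (lines P).filter (fun G => p ∈ G))]
    · apply sum_congr rfl
      intro G hG
      rw [mem_filter] at hG
      congr 1
      ext a
      simp only [mem_filter, mem_erase]
      constructor
      · rintro ⟨⟨h1, h2⟩, rfl⟩
        exact ⟨h1, mem_lineOf.2 ⟨h2, cr_self_right _ _⟩⟩
      · rintro ⟨h1, h2⟩
        exact ⟨⟨h1, line_subset hG.1 h2⟩, (eq_lineOf hG.1 hG.2 h2 h1.symm).symm⟩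
    · intro a ha
      rw [mem_coe, mem_erase] at ha
      rw [mem_coe, mem_filter]
      exact ⟨lineOf_mem_lines hp ha.2 ha.1.symm, mem_lineOf.2 ⟨hp, cr_self_left _ _⟩⟩
  have h2 : ((P.erase p).card : ℤ) = (P.card : ℤ) - 1 := by
    rw [card_erase_of_mem hp]
    have : 0 < P.card := card_pos.2 ⟨p, hp⟩
    omega
  rw [← h2, h1]
  push_cast
  apply sum_congr rfl
  intro G hG
  rw [card_erase_of_mem (mem_filter.1 hG).2]
  have : 0 < G.card := card_pos.2 ⟨p, (mem_filter.1 hG).2⟩
  omega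

/-- the points of `P` are not all on one circle or line -/
def Adm (P : Finset Pt) : Prop := 3 ≤ P.card ∧ P ∉ blocks P

lemma Adm.exists_D {P : Finset Pt} (h : Adm P) {p : Pt} (hp : p ∈ P) :
    ∃ a ∈ P, ∃ b ∈ P, ∃ c ∈ P, a ≠ p ∧ b ≠ p ∧ c ≠ p ∧ D p a b c ≠ 0 := by
  obtain ⟨a, ha, b, hb, hap, hbp, hab⟩ := exists_two_ne hp h.1
  have h1 := blk_mem_blocks hp ha hb hap.symm hbp.symm hab
  by_contra hcon
  push Not at hcon
  apply h.2
  have : P = blk P p a b := by
    ext c
    rw [mem_blk]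
    constructor
    · intro hc
      refine ⟨hc, ?_⟩
      by_cases hcp : c = p
      · subst hcp; exact D_self1 _ _ _
      · exact hcon a ha b hb c hc hap hbp hcp
    · exact fun h => h.1
  rw [← this] at h1
  exact h1

/-- Melchior's inequality in the picture inverted at `p` -/
theorem mel_one {P : Finset Pt} (h : Adm P) {p : Pt} (hp : p ∈ P) :
    3 ≤ ∑ G ∈ (blocks P).filter (fun G => p ∈ G), (4 - (G.card : ℤ)) := by
  obtain ⟨a, ha, b, hb, c, hc, hap, hbp, hcp, hD⟩ := h.exists_D hp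
  have h1 := melchior (S := (P.erase p).image (inv p))
    ⟨inv p a, mem_image_of_mem _ (mem_erase.2 ⟨hap, ha⟩), inv p b,
      mem_image_of_mem _ (mem_erase.2 ⟨hbp, hb⟩), inv p c,
      mem_image_of_mem _ (mem_erase.2 ⟨hcp, hc⟩), fun h => hD ((cr_inv_eq_zero hap hbp hcp).1 h)⟩
  have h2 := sum_inv hp (fun k => 3 - (k : ℤ))
  have h3 : ∑ G ∈ (blocks P).filter (fun G => p ∈ G), (4 - (G.card : ℤ)) =
      ∑ G ∈ (blocks P).filter (fun G => p ∈ G), (3 - ((G.card - 1 : ℕ) : ℤ)) := by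
    apply sum_congr rfl
    intro G hG
    have := three_le_block (mem_filter.1 hG).1
    omega
  rw [h3, ← h2, sum_sub_distrib]
  simp only [sum_const, nsmul_eq_mul]
  have h4 : ((∑ L ∈ lines ((P.erase p).image (inv p)), L.card : ℕ) : ℤ) + 3 ≤
    3 * ((lines ((P.erase p).image (inv p))).card : ℤ) := by exact_mod_cast h1
  push_cast at h4
  linarith

/-- Melchior's inequality in the picture inverted at `p`, with `p` itself kept -/
theorem mel_two {P : Finset Pt} (h : Adm P) {p : Pt} (hp : p ∈ P) :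
    3 - ((P.card : ℤ) - 1) ≤ ∑ G ∈ (circs P).filter (fun G => p ∈ G), (4 - (G.card : ℤ)) +
      ∑ G ∈ (lins P).filter (fun G => p ∈ G), (4 - 2 * (G.card : ℤ)) := by
  obtain ⟨a, ha, b, hb, c, hc, hap, hbp, hcp, hD⟩ := h.exists_D hp
  have h1 := melchior (S := P.image (inv p))
    ⟨inv p a, mem_image_of_mem _ ha, inv p b,
      mem_image_of_mem _ hb, inv p c,
      mem_image_of_mem _ hc, fun h => hD ((cr_inv_eq_zero hap hbp hcp).1 h)⟩
  have h2 := sum_inv_circ hp (fun k => 3 - (k : ℤ))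
  have h3 := sum_inv_lin hp (fun k => 3 - (k : ℤ))
  have h4 : ∑ G ∈ (circs P).filter (fun G => p ∈ G), (4 - (G.card : ℤ)) =
      ∑ G ∈ (circs P).filter (fun G => p ∈ G), (3 - ((G.card - 1 : ℕ) : ℤ)) := by
    apply sum_congr rfl
    intro G hG
    have := three_le_block (circ_mem_blocks (mem_filter.1 hG).1)
    omega
  have h5 := sum_lines_through hp
  have h6 : ∑ G ∈ (lins P).filter (fun G => p ∈ G), (4 - 2 * (G.card : ℤ)) =
      ∑ G ∈ (lines P).filter (fun G => p ∈ G), (4 - 2 * (G.card : ℤ)) := by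
    apply sum_subset
    · intro G hG
      simp only [lins, mem_filter] at hG ⊢
      exact ⟨hG.1.1, hG.2⟩
    · intro G hG hG2
      simp only [lins, mem_filter] at hG hG2
      have h7 : G.card < 3 := by
        by_contra hcon
        exact hG2 ⟨⟨hG.1, by omega⟩, hG.2⟩
      obtain ⟨x, hx, y, hy, hxy⟩ := exists_two hG.1
      have h8 : 1 < G.card := one_lt_card.2 ⟨x, hx, y, hy, hxy⟩
      have : G.card = 2 := by omega
      rw [this]; norm_num
  have h7 : ∑ G ∈ (lines P).filter (fun G => p ∈ G), (3 - (G.card : ℤ)) =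
      ∑ G ∈ (lines P).filter (fun G => p ∈ G), (4 - 2 * (G.card : ℤ)) +
      ∑ G ∈ (lines P).filter (fun G => p ∈ G), ((G.card : ℤ) - 1) := by
    rw [← sum_add_distrib]
    apply sum_congr rfl
    intro G _; ring
  have h8 := sum_filter_add_sum_filter_not (lines (P.image (inv p))) (fun L => p ∈ L)
    (fun L => 3 - (L.card : ℤ))
  have h9 : ((∑ L ∈ lines (P.image (inv p)), L.card : ℕ) : ℤ) + 3 ≤
    3 * ((lines (P.image (inv p))).card : ℤ) := by exact_mod_cast h1
  have h10 : ∑ L ∈ lines (P.image (inv p)), (3 - (L.card : ℤ)) =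
      3 * ((lines (P.image (inv p))).card : ℤ) - ∑ L ∈ lines (P.image (inv p)), (L.card : ℤ) := by
    rw [sum_sub_distrib]; simp [mul_comm]
  push_cast at h9
  rw [h4, ← h2, h6]
  rw [h3, h7, h5] at h8
  linarith

end

end Run7.h823.Circ
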