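import Mathlib
import Pool.Agent.Run7.h823.Circ.Geom

/-! Counting identities for the circles and lines through the points of a finite plane set. -/

namespace Run7.h823.Circ

open Finset Pool.Agent.Helper543.Melchior

noncomputable section

open scoped Classical

lemma unique_block {P G H : Finset Pt} (hG : G ∈ blocks P) (hH : H ∈ blocks P) {x y z : Pt}
    (hx : x ∈ G) (hy : y ∈ G) (hz : z ∈ G) (hx' : x ∈ H) (hy' : y ∈ H) (hz' : z ∈ H)
    (hxy : x ≠ y) (hxz : x ≠ z) (hyz : y ≠ z) : G = H :=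
  (block_eq_blk hG hx hy hz hxy hxz hyz).trans (block_eq_blk hH hx' hy' hz' hxy hxz hyz).symm

lemma unique_block' {P G H T : Finset Pt} (hG : G ∈ blocks P) (hH : H ∈ blocks P)
    (hT : 3 ≤ T.card) (h1 : T ⊆ G) (h2 : T ⊆ H) : G = H := by
  obtain ⟨x, hx, y, hy, z, hz, hxy, hxz, hyz⟩ := two_lt_card.1 (show 2 < T.card by omega)
  exact unique_block hG hH (h1 hx) (h1 hy) (h1 hz) (h2 hx) (h2 hy) (h2 hz) hxy hxz hyz

lemma card_blocks_three {P T : Finset Pt} (hT : T ⊆ P) (h3 : T.card = 3) :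
    ((blocks P).filter (fun G => T ⊆ G)).card = 1 := by
  obtain ⟨x, y, z, hxy, hxz, hyz, rfl⟩ := card_eq_three.1 h3
  have hx : x ∈ P := hT (by simp)
  have hy : y ∈ P := hT (by simp)
  have hz : z ∈ P := hT (by simp)
  rw [card_eq_one]
  refine ⟨blk P x y z, ?_⟩
  ext G
  rw [mem_filter, mem_singleton]
  constructor
  · rintro ⟨h1, h2⟩
    exact block_eq_blk h1 (h2 (by simp)) (h2 (by simp)) (h2 (by simp)) hxy hxz hyz
  · rintro rfl
    refine ⟨blk_mem_blocks hx hy hz hxy hxz hyz, ?_⟩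
    intro w hw
    simp only [mem_insert, mem_singleton] at hw
    rcases hw with rfl | rfl | rfl
    · exact self_mem_blk hx
    · exact self_mem_blk2 hy
    · exact self_mem_blk3 hz

lemma double_count {ι : Type*} (s : Finset ι) (B : Finset (Finset Pt)) (T : ι → Finset Pt)
    (N : Finset Pt → ℕ) (h1 : ∀ i ∈ s, (B.filter (fun G => T i ⊆ G)).card = 1)
    (h2 : ∀ G ∈ B, (s.filter (fun i => T i ⊆ G)).card = N G) : ∑ G ∈ B, N G = s.card := by
  have h := sum_card_bipartiteAbove_eq_sum_card_bipartiteBelow (s := s) (t := B)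
    (fun i G => T i ⊆ G)
  simp only [bipartiteAbove, bipartiteBelow] at h
  rw [sum_congr rfl h1, sum_congr rfl h2] at h
  rw [← h]; simp

/-- every triple of points is in exactly one block -/
theorem count_all {P : Finset Pt} :
    ∑ G ∈ blocks P, G.card.choose 3 = P.card.choose 3 := by
  rw [← card_powersetCard 3 P]
  apply double_count (powersetCard 3 P) (blocks P) (fun T => T)
  · intro T hT
    rw [mem_powersetCard] at hT
    exact card_blocks_three hT.1 hT.2
  · intro G hG
    rw [← card_powersetCard 3 G]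
    congr 1
    ext T
    simp only [mem_filter, mem_powersetCard]
    constructor
    · rintro ⟨⟨_, h2⟩, h3⟩; exact ⟨h3, h2⟩
    · rintro ⟨h2, h3⟩; exact ⟨⟨h2.trans (block_subset hG), h3⟩, h2⟩

lemma card_filter_erase {P C T : Finset Pt} (hT : T ⊆ P) (h3 : T.card = 3) (hC : ¬ T ⊆ C) :
    (((blocks P).erase C).filter (fun G => T ⊆ G)).card = 1 := by
  rw [← card_blocks_three hT h3]
  congr 1
  ext G
  simp only [mem_filter, mem_erase]
  constructor
  · rintro ⟨⟨_, h1⟩, h2⟩; exact ⟨h1, h2⟩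
  · rintro ⟨h1, h2⟩
    refine ⟨⟨?_, h1⟩, h2⟩
    rintro rfl
    exact hC h2

/-- triples with exactly two points in `C` -/
theorem count_two {P C : Finset Pt} (hC : C ∈ blocks P) :
    ∑ G ∈ (blocks P).erase C, (G ∩ C).card.choose 2 * (G \ C).card =
      C.card.choose 2 * (P \ C).card := by
  have h : (powersetCard 2 C ×ˢ (P \ C)).card = C.card.choose 2 * (P \ C).card := by
    rw [card_product, card_powersetCard]
  rw [← h]
  apply double_count (powersetCard 2 C ×ˢ (P \ C)) _ (fun T => insert T.2 T.1)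
  · rintro ⟨A, x⟩ hAx
    simp only [mem_product, mem_powersetCard, mem_sdiff] at hAx
    obtain ⟨⟨h1, h2⟩, h3, h4⟩ := hAx
    apply card_filter_erase
    · exact insert_subset h3 (h1.trans (block_subset hC))
    · rw [card_insert_of_notMem (fun h => h4 (h1 h)), h2]
    · intro h; exact h4 (h (mem_insert_self _ _))
  · intro G hG
    rw [mem_erase] at hG
    rw [← card_powersetCard 2 (G ∩ C), ← card_product]
    congr 1
    ext ⟨A, x⟩
    simp only [mem_filter, mem_product, mem_powersetCard, mem_sdiff, insert_subset_iff,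
      subset_inter_iff]
    constructor
    · rintro ⟨⟨⟨h1, h2⟩, h3, h4⟩, h5, h6⟩
      exact ⟨⟨⟨h6, h1⟩, h2⟩, h5, h4⟩
    · rintro ⟨⟨⟨h6, h1⟩, h2⟩, h5, h4⟩
      exact ⟨⟨⟨h1, h2⟩, block_subset hG.2 h5, h4⟩, h5, h6⟩

/-- triples with exactly one point in `C` -/
theorem count_one {P C : Finset Pt} (hC : C ∈ blocks P) :
    ∑ G ∈ (blocks P).erase C, (G ∩ C).card * (G \ C).card.choose 2 =
      C.card * (P \ C).card.choose 2 := by
  have h : (C ×ˢ powersetCard 2 (P \ C)).card = C.card * (P \ C).card.choose 2 := by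
    rw [card_product, card_powersetCard]
  rw [← h]
  apply double_count (C ×ˢ powersetCard 2 (P \ C)) _ (fun T => insert T.1 T.2)
  · rintro ⟨x, A⟩ hAx
    simp only [mem_product, mem_powersetCard] at hAx
    obtain ⟨h3, h1, h2⟩ := hAx
    have hx : x ∉ A := fun h => (mem_sdiff.1 (h1 h)).2 h3
    apply card_filter_erase
    · exact insert_subset (block_subset hC h3) (h1.trans sdiff_subset)
    · rw [card_insert_of_notMem hx, h2]
    · intro h
      obtain ⟨y, hy⟩ : A.Nonempty := by rw [← card_pos]; omega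
      exact (mem_sdiff.1 (h1 hy)).2 (h (mem_insert_of_mem hy))
  · intro G hG
    rw [mem_erase] at hG
    rw [← card_powersetCard 2 (G \ C), ← card_product]
    congr 1
    ext ⟨x, A⟩
    simp only [mem_filter, mem_product, mem_powersetCard, insert_subset_iff, mem_inter]
    constructor
    · rintro ⟨⟨h3, h1, h2⟩, h5, h6⟩
      exact ⟨⟨h5, h3⟩, fun y hy => mem_sdiff.2 ⟨h6 hy, (mem_sdiff.1 (h1 hy)).2⟩, h2⟩
    · rintro ⟨⟨h5, h3⟩, h1, h2⟩
      refine ⟨⟨h3, fun y hy => mem_sdiff.2 ⟨block_subset hG.2 (mem_sdiff.1 (h1 hy)).1,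
        (mem_sdiff.1 (h1 hy)).2⟩, h2⟩, h5, fun y hy => (mem_sdiff.1 (h1 hy)).1⟩

/-- triples with no point in `C` -/
theorem count_zero {P C : Finset Pt} (hC : C ∈ blocks P) :
    ∑ G ∈ (blocks P).erase C, (G \ C).card.choose 3 = (P \ C).card.choose 3 := by
  rw [← card_powersetCard 3 (P \ C)]
  apply double_count (powersetCard 3 (P \ C)) _ (fun T => T)
  · intro A hA
    simp only [mem_powersetCard] at hA
    apply card_filter_erase (hA.1.trans sdiff_subset) hA.2
    intro h
    obtain ⟨y, hy⟩ : A.Nonempty := by rw [← card_pos]; omega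
    exact (mem_sdiff.1 (hA.1 hy)).2 (h hy)
  · intro G hG
    rw [mem_erase] at hG
    rw [← card_powersetCard 3 (G \ C)]
    congr 1
    ext A
    simp only [mem_filter, mem_powersetCard]
    constructor
    · rintro ⟨⟨h1, h2⟩, h3⟩
      exact ⟨fun y hy => mem_sdiff.2 ⟨h3 hy, (mem_sdiff.1 (h1 hy)).2⟩, h2⟩
    · rintro ⟨h1, h2⟩
      exact ⟨⟨fun y hy => mem_sdiff.2 ⟨block_subset hG.2 (mem_sdiff.1 (h1 hy)).1,
        (mem_sdiff.1 (h1 hy)).2⟩, h2⟩, fun y hy => (mem_sdiff.1 (h1 hy)).1⟩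

lemma inter_card_le {P C G : Finset Pt} (hC : C ∈ blocks P) (hG : G ∈ blocks P) (hne : G ≠ C) :
    (G ∩ C).card ≤ 2 := by
  by_contra hcon
  exact hne (unique_block' hG hC (show 3 ≤ (G ∩ C).card by omega) inter_subset_left
    inter_subset_right)

lemma card_split (G C : Finset Pt) : (G ∩ C).card + (G \ C).card = G.card :=
  card_inter_add_card_sdiff G C

lemma lin_inter_card_le {P C G : Finset Pt} (hC : C ∈ lins P) (hG : G ∈ lins P) (hne : G ≠ C) :
    (G ∩ C).card ≤ 1 := by
  by_contra hcon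
  obtain ⟨x, hx, y, hy, hxy⟩ := one_lt_card.1 (show 1 < (G ∩ C).card by omega)
  rw [mem_inter] at hx hy
  apply hne
  rw [eq_lineOf (mem_filter.1 hG).1 hx.1 hy.1 hxy, eq_lineOf (mem_filter.1 hC).1 hx.2 hy.2 hxy]

/-- a family of blocks whose traces on `C` are pairwise disjoint pairs -/
lemma matching_bound {C : Finset Pt} (B : Finset (Finset Pt)) (h2 : ∀ G ∈ B, (G ∩ C).card = 2)
    (hd : ∀ G ∈ B, ∀ H ∈ B, G ≠ H → Disjoint (G ∩ C) (H ∩ C)) : B.card ≤ C.card / 2 := by
  have h : (B.biUnion (fun G => G ∩ C)).card = ∑ G ∈ B, (G ∩ C).card := by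
    apply card_biUnion
    intro G hG H hH hne
    exact hd G hG H hH hne
  rw [sum_congr rfl h2, sum_const, smul_eq_mul] at h
  have h3 : (B.biUnion (fun G => G ∩ C)).card ≤ C.card := by
    apply card_le_card
    intro x hx
    rw [mem_biUnion] at hx
    obtain ⟨G, _, hx⟩ := hx
    exact (mem_inter.1 hx).2
  omega

/-- through two points off `C` there are few blocks meeting `C` in two points -/
theorem count_match {P C : Finset Pt} :
    ∑ G ∈ ((blocks P).erase C).filter (fun G => (G ∩ C).card = 2), (G \ C).card.choose 2 ≤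
      (P \ C).card.choose 2 * (C.card / 2) := by
  set B := ((blocks P).erase C).filter (fun G => (G ∩ C).card = 2) with hB
  have h := sum_card_bipartiteAbove_eq_sum_card_bipartiteBelow (s := powersetCard 2 (P \ C))
    (t := B) (fun A G => A ⊆ G)
  simp only [bipartiteAbove, bipartiteBelow] at h
  have h1 : ∀ G ∈ B, ((powersetCard 2 (P \ C)).filter (fun A => A ⊆ G)).card =
      (G \ C).card.choose 2 := by
    intro G hG
    have hG' : G ∈ blocks P := (mem_erase.1 (mem_filter.1 hG).1).2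
    rw [← card_powersetCard 2 (G \ C)]
    congr 1
    ext A
    simp only [mem_filter, mem_powersetCard]
    constructor
    · rintro ⟨⟨h1, h2⟩, h3⟩
      exact ⟨fun y hy => mem_sdiff.2 ⟨h3 hy, (mem_sdiff.1 (h1 hy)).2⟩, h2⟩
    · rintro ⟨h1, h2⟩
      exact ⟨⟨fun y hy => mem_sdiff.2 ⟨block_subset hG' (mem_sdiff.1 (h1 hy)).1,
        (mem_sdiff.1 (h1 hy)).2⟩, h2⟩, fun y hy => (mem_sdiff.1 (h1 hy)).1⟩
  rw [sum_congr rfl h1] at h
  rw [← h, ← card_powersetCard 2 (P \ C), ← smul_eq_mul]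
  apply sum_le_card_nsmul
  intro A hA
  rw [mem_powersetCard] at hA
  apply matching_bound
  · intro G hG
    exact (mem_filter.1 (mem_filter.1 hG).1).2
  · intro G hG H hH hne
    rw [disjoint_left]
    intro x hx hx'
    apply hne
    rw [mem_inter] at hx hx'
    obtain ⟨a, b, hab, rfl⟩ := card_eq_two.1 hA.2
    have hxa : x ≠ a := by
      rintro rfl
      exact (mem_sdiff.1 (hA.1 (by simp))).2 hx.2
    have hxb : x ≠ b := by
      rintro rfl
      exact (mem_sdiff.1 (hA.1 (by simp))).2 hx.2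
    exact unique_block (mem_erase.1 (mem_filter.1 (mem_filter.1 hG).1).1).2
      (mem_erase.1 (mem_filter.1 (mem_filter.1 hH).1).1).2 hx.1 ((mem_filter.1 hG).2 (by simp))
      ((mem_filter.1 hG).2 (by simp)) hx'.1 ((mem_filter.1 hH).2 (by simp))
      ((mem_filter.1 hH).2 (by simp)) hxa hxb hab

lemma sum_card_through {ι : Type*} (s : Finset Pt) (B : Finset ι) (G : ι → Finset Pt) :
    ∑ x ∈ s, (B.filter (fun i => x ∈ G i)).card = ∑ i ∈ B, (s.filter (fun x => x ∈ G i)).card := by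
  have h := sum_card_bipartiteAbove_eq_sum_card_bipartiteBelow (s := s)
    (t := B) (fun x i => x ∈ G i)
  simpa only [bipartiteAbove, bipartiteBelow] using h

/-- through one point off `C` there are few lines meeting `C` in two points -/
theorem count_match_lin {P C : Finset Pt} :
    ∑ G ∈ ((lins P).erase C).filter (fun G => (G ∩ C).card = 2), (G \ C).card ≤
      (P \ C).card * (C.card / 2) := by
  set B := ((lins P).erase C).filter (fun G => (G ∩ C).card = 2) with hB
  have h := sum_card_through (P \ C) B (fun G => G)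
  have h1 : ∀ G ∈ B, ((P \ C).filter (fun x => x ∈ G)).card = (G \ C).card := by
    intro G hG
    have hG' : G ∈ blocks P := lin_mem_blocks (mem_erase.1 (mem_filter.1 hG).1).2
    congr 1
    ext x
    simp only [mem_filter, mem_sdiff]
    constructor
    · rintro ⟨⟨_, h2⟩, h3⟩; exact ⟨h3, h2⟩
    · rintro ⟨h2, h3⟩; exact ⟨⟨block_subset hG' h2, h3⟩, h2⟩
  rw [sum_congr rfl h1] at h
  rw [← h, ← smul_eq_mul]
  apply sum_le_card_nsmul
  intro a ha
  apply matching_bound
  · intro G hG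
    exact (mem_filter.1 (mem_filter.1 hG).1).2
  · intro G hG H hH hne
    rw [disjoint_left]
    intro x hx hx'
    apply hne
    rw [mem_inter] at hx hx'
    have hxa : x ≠ a := by
      rintro rfl
      exact (mem_sdiff.1 ha).2 hx.2
    have e1 := (mem_filter.1 (mem_erase.1 (mem_filter.1 (mem_filter.1 hG).1).1).2).1
    have e2 := (mem_filter.1 (mem_erase.1 (mem_filter.1 (mem_filter.1 hH).1).1).2).1
    rw [eq_lineOf e1 hx.1 (mem_filter.1 hG).2 hxa, eq_lineOf e2 hx'.1 (mem_filter.1 hH).2 hxa]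

/-- summing a weight over the blocks through each point of `A` -/
lemma sum_through {A : Finset Pt} (B : Finset (Finset Pt)) (w : Finset Pt → ℤ) :
    ∑ p ∈ A, ∑ G ∈ B.filter (fun G => p ∈ G), w G = ∑ G ∈ B, ((G ∩ A).card : ℤ) * w G := by
  simp_rw [sum_filter]
  rw [sum_comm]
  apply sum_congr rfl
  intro G _
  rw [← sum_filter, sum_const, nsmul_eq_mul]
  congr 3
  ext x
  simp [and_comm]

theorem mel_one_sum {P A : Finset Pt} (h : Adm P) (hA : A ⊆ P) :
    3 * (A.card : ℤ) ≤ ∑ G ∈ blocks P, ((G ∩ A).card : ℤ) * (4 - (G.card : ℤ)) := by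
  rw [← sum_through]
  have : ∑ p ∈ A, (3 : ℤ) ≤ ∑ p ∈ A, ∑ G ∈ (blocks P).filter (fun G => p ∈ G),
      (4 - (G.card : ℤ)) := sum_le_sum (fun p hp => mel_one h (hA hp))
  rw [sum_const, nsmul_eq_mul] at this
  linarith

theorem mel_two_sum {P A : Finset Pt} (h : Adm P) (hA : A ⊆ P) :
    (A.card : ℤ) * (3 - ((P.card : ℤ) - 1)) ≤
      ∑ G ∈ circs P, ((G ∩ A).card : ℤ) * (4 - (G.card : ℤ)) +
      ∑ G ∈ lins P, ((G ∩ A).card : ℤ) * (4 - 2 * (G.card : ℤ)) := by
  rw [← sum_through, ← sum_through, ← sum_add_distrib]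
  have : ∑ p ∈ A, (3 - ((P.card : ℤ) - 1)) ≤
      ∑ p ∈ A, (∑ G ∈ (circs P).filter (fun G => p ∈ G), (4 - (G.card : ℤ)) +
      ∑ G ∈ (lins P).filter (fun G => p ∈ G), (4 - 2 * (G.card : ℤ))) :=
    sum_le_sum (fun p hp => mel_two h (hA hp))
  rw [sum_const, nsmul_eq_mul] at this
  exact this

end

end Run7.h823.Circ
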