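import Mathlib
import Pool.Agent.Run7.h823.Circ.Count
import Pool.Agent.Run7.h823.Circ.Arith

/-! The construction: points of a circle, in antipodal pairs, and the centre. -/

namespace Run7.h823.Circ

open Finset Pool.Agent.Helper543.Melchior

noncomputable section

open scoped Classical

/-- points of the unit circle -/
def q (t : ℕ) : Pt := ((1 - (t : ℝ) ^ 2) / (1 + (t : ℝ) ^ 2), 2 * (t : ℝ) / (1 + (t : ℝ) ^ 2))

lemma q_circle (t : ℕ) : (q t).1 ^ 2 + (q t).2 ^ 2 = 1 := by
  have : (0 : ℝ) < 1 + (t : ℝ) ^ 2 := by positivity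
  simp only [q]
  field_simp
  ring

lemma q_inj : Function.Injective q := by
  intro s t h
  have h1 : (0 : ℝ) < 1 + (s : ℝ) ^ 2 := by positivity
  have h2 : (0 : ℝ) < 1 + (t : ℝ) ^ 2 := by positivity
  have h3 := congrArg Prod.fst h
  simp only [q] at h3
  rw [div_eq_div_iff h1.ne' h2.ne'] at h3
  have h4 : ((s : ℝ)) ^ 2 = (t : ℝ) ^ 2 := by linarith
  have h5 : (s : ℝ) = t := by
    have := (sq_eq_sq₀ (Nat.cast_nonneg s) (Nat.cast_nonneg t)).1 h4
    exact this
  exact_mod_cast h5

lemma q_ne_neg (s t : ℕ) : q s ≠ - q t := by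
  intro h
  have h1 : (0 : ℝ) < 1 + (s : ℝ) ^ 2 := by positivity
  have h2 : (0 : ℝ) < 1 + (t : ℝ) ^ 2 := by positivity
  have h3 := congrArg Prod.snd h
  have h4 := congrArg Prod.fst h
  simp only [q, Prod.snd_neg, Prod.fst_neg] at h3 h4
  have hs : (s : ℝ) = 0 := by
    have a1 : 0 ≤ 2 * (t : ℝ) / (1 + (t : ℝ) ^ 2) := by positivity
    have a2 : 2 * (s : ℝ) / (1 + (s : ℝ) ^ 2) ≤ 0 := by linarith
    by_contra hs
    have : 0 < (s : ℝ) := lt_of_le_of_ne (Nat.cast_nonneg s) (Ne.symm hs)
    have : 0 < 2 * (s : ℝ) / (1 + (s : ℝ) ^ 2) := by positivity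
    linarith
  have ht : (t : ℝ) = 0 := by
    have a1 : 0 ≤ 2 * (s : ℝ) / (1 + (s : ℝ) ^ 2) := by positivity
    have a2 : 2 * (t : ℝ) / (1 + (t : ℝ) ^ 2) ≤ 0 := by linarith
    by_contra hs
    have : 0 < (t : ℝ) := lt_of_le_of_ne (Nat.cast_nonneg t) (Ne.symm hs)
    have : 0 < 2 * (t : ℝ) / (1 + (t : ℝ) ^ 2) := by positivity
    linarith
  rw [hs, ht] at h4
  norm_num at h4

/-- the points on the circle -/
def ring' (N : ℕ) : Finset Pt :=
  (range ((N + 1) / 2)).image q ∪ (range (N / 2)).image (fun t => - q t)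

lemma card_ring (N : ℕ) : (ring' N).card = N := by
  rw [ring', card_union_of_disjoint, card_image_of_injective _ q_inj,
    card_image_of_injective, card_range, card_range]
  · omega
  · intro a b h
    exact q_inj (neg_injective h)
  · rw [disjoint_left]
    intro x h1 h2
    rw [mem_image] at h1 h2
    obtain ⟨s, _, rfl⟩ := h1
    obtain ⟨t, _, h3⟩ := h2
    exact q_ne_neg s t h3.symm

lemma ring_circle {N : ℕ} {x : Pt} (hx : x ∈ ring' N) : x.1 ^ 2 + x.2 ^ 2 = 1 := by
  rw [ring', mem_union, mem_image, mem_image] at hx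
  rcases hx with ⟨t, _, rfl⟩ | ⟨t, _, rfl⟩
  · exact q_circle t
  · have := q_circle t
    simp only [Prod.fst_neg, Prod.snd_neg]
    linarith

/-- the configuration -/
def conf (N : ℕ) : Finset Pt := insert 0 (ring' N)

lemma zero_notMem_ring (N : ℕ) : (0 : Pt) ∉ ring' N := by
  intro h
  have := ring_circle h
  norm_num at this

lemma card_conf (N : ℕ) : (conf N).card = N + 1 := by
  rw [conf, card_insert_of_notMem (zero_notMem_ring N), card_ring]

/-- four points of the unit circle -/
lemma D_expand (a b c d : Pt) (u v r : ℝ) : D a b c d =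
    cr a b c * ((d.1 - u) ^ 2 + (d.2 - v) ^ 2 - r) - cr a b d * ((c.1 - u) ^ 2 + (c.2 - v) ^ 2 - r) +
    cr a c d * ((b.1 - u) ^ 2 + (b.2 - v) ^ 2 - r) -
    cr b c d * ((a.1 - u) ^ 2 + (a.2 - v) ^ 2 - r) := by
  simp only [D, cr, nq, Prod.fst_sub, Prod.snd_sub]
  ring

/-- three distinct points of a circle are not collinear -/
lemma cr_ne_of_circle {a b c : Pt} {u v r : ℝ} (hab : a ≠ b) (hac : a ≠ c) (hbc : b ≠ c)
    (ha : (a.1 - u) ^ 2 + (a.2 - v) ^ 2 = r) (hb : (b.1 - u) ^ 2 + (b.2 - v) ^ 2 = r)
    (hc : (c.1 - u) ^ 2 + (c.2 - v) ^ 2 = r) : cr a b c ≠ 0 := by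
  intro h
  obtain ⟨s, hs1, hs2⟩ := exists_param hab h
  have h0 := nq_pos hab.symm
  have e1 : c.1 = a.1 + s * (b.1 - a.1) := by linarith
  have e2 : c.2 = a.2 + s * (b.2 - a.2) := by linarith
  have e : s * (1 - s) * nq (b - a) = 0 := by
    rw [e1, e2] at hc
    simp only [nq, Prod.fst_sub, Prod.snd_sub]
    linear_combination (1 - s) * ha + s * hb - hc
  rcases mul_eq_zero.1 e with h1 | h1
  · rcases mul_eq_zero.1 h1 with h2 | h2
    · apply hac
      subst h2
      ext <;> linarith
    · apply hbc
      have : s = 1 := by linarith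
      subst this
      ext <;> linarith
  · exact absurd h1 h0.ne'

lemma ring_mem_circs {N : ℕ} (hN : 3 ≤ N) : ring' N ∈ circs (conf N) := by
  obtain ⟨x, hx, y, hy, z, hz, hxy, hxz, hyz⟩ :=
    two_lt_card.1 (show 2 < (ring' N).card by rw [card_ring]; omega)
  have cx := ring_circle hx
  have cy := ring_circle hy
  have cz := ring_circle hz
  have hcr : cr x y z ≠ 0 := cr_ne_of_circle (u := 0) (v := 0) (r := 1) hxy hxz hyz
    (by simpa using cx) (by simpa using cy) (by simpa using cz)
  rw [mem_circs]
  refine ⟨x, mem_insert_of_mem hx, y, mem_insert_of_mem hy, z, mem_insert_of_mem hz, hcr, ?_⟩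
  ext d
  have hD := D_expand x y z d 0 0 1
  simp only [sub_zero, cx, cy, cz, sub_self, mul_zero, add_zero] at hD
  rw [mem_blk, conf, mem_insert]
  constructor
  · intro hd
    refine ⟨Or.inr hd, ?_⟩
    rw [hD, ring_circle hd]; ring
  · rintro ⟨rfl | hd, h⟩
    · rw [hD] at h
      simp at h
      exact absurd h hcr
    · exact hd

lemma adm_conf {N : ℕ} (hN : 3 ≤ N) : Adm (conf N) := by
  refine ⟨by rw [card_conf]; omega, fun h => ?_⟩
  have h1 := circ_mem_blocks (ring_mem_circs hN)
  have h2 := unique_block' h h1 (show 3 ≤ (ring' N).card by rw [card_ring]; exact hN)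
    (subset_insert _ _) (Subset.refl _)
  have h3 : (0 : Pt) ∈ conf N := mem_insert_self _ _
  rw [h2] at h3
  exact zero_notMem_ring N h3

theorem circs_conf {N : ℕ} (hN : 3 ≤ N) :
    (circs (conf N)).card ≤ N.choose 2 + 1 - N / 2 := by
  have hC := ring_mem_circs hN
  have hCb := circ_mem_blocks hC
  have hm : (conf N \ ring' N).card = 1 := by
    rw [card_sdiff_of_subset (show ring' N ⊆ conf N from subset_insert _ _), card_conf, card_ring]
    omega
  have h1 := count_two hCb
  rw [hm, card_ring] at h1
  have h2 : ∑ G ∈ (blocks (conf N)).erase (ring' N),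
      (G ∩ ring' N).card.choose 2 * (G \ ring' N).card =
      ((blocks (conf N)).erase (ring' N)).card := by
    rw [card_eq_sum_ones]
    apply sum_congr rfl
    intro G hG
    rw [mem_erase] at hG
    have e1 := inter_card_le hCb hG.2 hG.1
    have e2 : (G \ ring' N).card ≤ 1 := by
      rw [← hm]; exact card_le_card (sdiff_subset_sdiff (block_subset hG.2) (Subset.refl _))
    have e3 := three_le_block hG.2
    rw [← card_split G (ring' N)] at e3
    have e4 : (G ∩ ring' N).card = 2 := by omega
    have e5 : (G \ ring' N).card = 1 := by omega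
    rw [e4, e5]; rfl
  rw [h2] at h1
  have h3 : ((blocks (conf N)).erase (ring' N)).card =
      ((circs (conf N)).erase (ring' N)).card + (lins (conf N)).card := by
    rw [← card_union_of_disjoint]
    · congr 1
      ext G
      simp only [blocks, mem_erase, mem_union]
      constructor
      · rintro ⟨h1, h2 | h2⟩
        · exact Or.inl ⟨h1, h2⟩
        · exact Or.inr h2
      · rintro (⟨h1, h2⟩ | h2)
        · exact ⟨h1, Or.inl h2⟩
        · exact ⟨fun h => disjoint_left.1 (circs_disjoint_lins _) (h ▸ hC) h2, Or.inr h2⟩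
    · exact disjoint_of_subset_left (erase_subset _ _) (circs_disjoint_lins _)
  have h4 : N / 2 ≤ (lins (conf N)).card := by
    have : (range (N / 2)).card ≤ (lins (conf N)).card := by
      apply card_le_card_of_injOn (fun t => blk (conf N) 0 (q t) (- q t))
      · intro t ht
        rw [mem_coe, mem_range] at ht
        have m1 : q t ∈ ring' N := by
          rw [ring', mem_union]; left
          exact mem_image_of_mem _ (mem_range.2 (by omega))
        have m2 : - q t ∈ ring' N := by
          rw [ring', mem_union]; right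
          exact mem_image.2 ⟨t, mem_range.2 ht, rfl⟩
        have n1 : (0 : Pt) ≠ q t := fun h => zero_notMem_ring N (h ▸ m1)
        have n2 : (0 : Pt) ≠ - q t := fun h => zero_notMem_ring N (h ▸ m2)
        have hcr : cr 0 (q t) (- q t) = 0 := by
          simp only [cr, Prod.fst_zero, Prod.snd_zero, Prod.fst_neg, Prod.snd_neg]; ring
        have hb := blk_mem_blocks (P := conf N) (mem_insert_self _ _) (mem_insert_of_mem m1)
          (mem_insert_of_mem m2) n1 n2 (q_ne_neg t t)
        rcases mem_union.1 hb with h | h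
        · exact absurd hcr (circ_cr h (self_mem_blk (mem_insert_self _ _))
            (self_mem_blk2 (mem_insert_of_mem m1)) (self_mem_blk3 (mem_insert_of_mem m2))
            n1 n2 (q_ne_neg t t))
        · exact h
      · intro s hs t ht hst
        simp only [coe_range, Set.mem_Iio] at hs ht
        by_contra hne
        have m : ∀ t, t < N / 2 → q t ∈ ring' N ∧ - q t ∈ ring' N := by
          intro t ht
          constructor
          · rw [ring', mem_union]; left
            exact mem_image_of_mem _ (mem_range.2 (by omega))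
          · rw [ring', mem_union]; right
            exact mem_image.2 ⟨t, mem_range.2 ht, rfl⟩
        obtain ⟨m1, m2⟩ := m s hs
        obtain ⟨m3, _⟩ := m t ht
        have n1 : (0 : Pt) ≠ q s := fun h => zero_notMem_ring N (h ▸ m1)
        have n2 : (0 : Pt) ≠ - q s := fun h => zero_notMem_ring N (h ▸ m2)
        have hb := blk_mem_blocks (P := conf N) (mem_insert_self _ _) (mem_insert_of_mem m1)
          (mem_insert_of_mem m2) n1 n2 (q_ne_neg s s)
        have hne' : blk (conf N) 0 (q s) (- q s) ≠ ring' N := by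
          intro h
          have : (0 : Pt) ∈ blk (conf N) 0 (q s) (- q s) := self_mem_blk (mem_insert_self _ _)
          rw [h] at this
          exact zero_notMem_ring N this
        have hle := inter_card_le hCb hb hne'
        have h5 : q t ∈ blk (conf N) 0 (q s) (- q s) := by
          have : q t ∈ blk (conf N) 0 (q t) (- q t) := self_mem_blk2 (mem_insert_of_mem m3)
          simp only at hst
          rw [hst]; exact this
        have h6 : 3 ≤ (blk (conf N) 0 (q s) (- q s) ∩ ring' N).card := by
          apply three_le_card (a := q s) (b := - q s) (c := q t)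
          · exact mem_inter.2 ⟨self_mem_blk2 (mem_insert_of_mem m1), m1⟩
          · exact mem_inter.2 ⟨self_mem_blk3 (mem_insert_of_mem m2), m2⟩
          · exact mem_inter.2 ⟨h5, m3⟩
          · exact q_ne_neg s s
          · exact fun h => hne (q_inj h)
          · exact (q_ne_neg t s).symm
        omega
    rwa [card_range] at this
  have h5 : ((circs (conf N)).erase (ring' N)).card = (circs (conf N)).card - 1 :=
    card_erase_of_mem hC
  omega

end

end Run7.h823.Circ
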