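import Mathlib
import Pool.Agent.Run7.h823.Circ.Count
import Pool.Agent.Run7.h823.Circ.Constr

/-! From circles of the Euclidean plane to coordinates. -/

namespace Run7.h823.Circ

open Finset Pool.Agent.Helper543.Melchior

noncomputable section

open scoped Classical

/-- the Euclidean plane -/
abbrev Plane := EuclideanSpace ℝ (Fin 2)

/-- the number of circles that pass through at least three points of `P` -/
def circleCount (P : Finset Plane) : ℕ :=
  {S : EuclideanGeometry.Sphere Plane | 3 ≤ {x : Plane | x ∈ P ∧ x ∈ S}.ncard}.ncard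

/-- the points of `P` are neither all on one line nor all on one circle -/
def Admissible (P : Finset Plane) : Prop :=
  ¬ Collinear ℝ (P : Set Plane) ∧ ¬ EuclideanGeometry.Cospherical (P : Set Plane)

/-- coordinates -/
def φ (x : Plane) : Pt := (x 0, x 1)

lemma φ_inj : Function.Injective φ := by
  intro x y h
  have h1 := congrArg Prod.fst h
  have h2 := congrArg Prod.snd h
  ext i
  fin_cases i
  · exact h1
  · exact h2

lemma mem_sph {S : EuclideanGeometry.Sphere Plane} {x : Plane} :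
    x ∈ S ↔ 0 ≤ S.radius ∧ ((φ x).1 - S.center 0) ^ 2 + ((φ x).2 - S.center 1) ^ 2 =
      S.radius ^ 2 := by
  rw [EuclideanGeometry.mem_sphere, EuclideanSpace.dist_eq, Fin.sum_univ_two, Real.dist_eq,
    Real.dist_eq, sq_abs, sq_abs]
  simp only [φ]
  set A := (x 0 - S.center 0) ^ 2 + (x 1 - S.center 1) ^ 2 with hA
  have hA0 : 0 ≤ A := by positivity
  constructor
  · intro h
    refine ⟨h ▸ Real.sqrt_nonneg _, ?_⟩
    rw [← h, Real.sq_sqrt hA0]
  · rintro ⟨h1, h2⟩
    rw [h2, Real.sqrt_sq h1]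

/-- the points of `P` on a circle -/
def trace (P : Finset Plane) (S : EuclideanGeometry.Sphere Plane) : Finset Plane :=
  P.filter (fun x => x ∈ S)

lemma ncard_trace (P : Finset Plane) (S : EuclideanGeometry.Sphere Plane) :
    {x : Plane | x ∈ P ∧ x ∈ S}.ncard = (trace P S).card := by
  rw [← Set.ncard_coe_finset]
  congr 1
  ext x
  simp [trace]

lemma trace_eq {P : Finset Plane} {S : EuclideanGeometry.Sphere Plane} {a b c : Plane}
    (ha : a ∈ S) (hb : b ∈ S) (hc : c ∈ S) (hab : a ≠ b) (hac : a ≠ c) (hbc : b ≠ c) :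
    cr (φ a) (φ b) (φ c) ≠ 0 ∧ (trace P S).image φ = blk (P.image φ) (φ a) (φ b) (φ c) := by
  rw [mem_sph] at ha hb hc
  have hcr : cr (φ a) (φ b) (φ c) ≠ 0 := cr_ne_of_circle (fun h => hab (φ_inj h))
    (fun h => hac (φ_inj h)) (fun h => hbc (φ_inj h)) ha.2 hb.2 hc.2
  refine ⟨hcr, ?_⟩
  have key : ∀ d : Plane, D (φ a) (φ b) (φ c) (φ d) = 0 ↔ d ∈ S := by
    intro d
    have hD := D_expand (φ a) (φ b) (φ c) (φ d) (S.center 0) (S.center 1) (S.radius ^ 2)
    rw [ha.2, hb.2, hc.2, sub_self, mul_zero, mul_zero, mul_zero, sub_zero, sub_zero,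
      add_zero] at hD
    rw [hD, mul_eq_zero, mem_sph]
    constructor
    · rintro (h | h)
      · exact absurd h hcr
      · exact ⟨ha.1, by linarith⟩
    · rintro ⟨_, h⟩
      right; linarith
  ext z
  simp only [trace, mem_image, mem_filter, mem_blk]
  constructor
  · rintro ⟨d, ⟨h1, h2⟩, rfl⟩
    exact ⟨⟨d, h1, rfl⟩, (key d).2 h2⟩
  · rintro ⟨⟨d, h1, rfl⟩, h2⟩
    exact ⟨d, ⟨h1, (key d).1 h2⟩, rfl⟩

lemma exists_three {P : Finset Plane} {S : EuclideanGeometry.Sphere Plane}
    (h : 3 ≤ {x : Plane | x ∈ P ∧ x ∈ S}.ncard) : ∃ a ∈ P, ∃ b ∈ P, ∃ c ∈ P, a ≠ b ∧ a ≠ c ∧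
      b ≠ c ∧ a ∈ S ∧ b ∈ S ∧ c ∈ S := by
  rw [ncard_trace] at h
  obtain ⟨x, hx, y, hy, z, hz, hxy, hxz, hyz⟩ := two_lt_card.1 (show 2 < (trace P S).card from h)
  simp only [trace, mem_filter] at hx hy hz
  exact ⟨x, hx.1, y, hy.1, z, hz.1, hxy, hxz, hyz, hx.2, hy.2, hz.2⟩

/-- the circle through three points that are not collinear -/
lemma exists_circle {a b c : Plane} (h : cr (φ a) (φ b) (φ c) ≠ 0) :
    ∃ S : EuclideanGeometry.Sphere Plane, a ∈ S ∧ b ∈ S ∧ c ∈ S := by
  set A := φ a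
  set B := φ b
  set C := φ c
  set k := cr A B C with hk
  set u : ℝ := A.1 + ((C.2 - A.2) * nq (B - A) - (B.2 - A.2) * nq (C - A)) / (2 * k) with hu
  set v : ℝ := A.2 + ((B.1 - A.1) * nq (C - A) - (C.1 - A.1) * nq (B - A)) / (2 * k) with hv
  set ρ : ℝ := (A.1 - u) ^ 2 + (A.2 - v) ^ 2 with hρ
  have hρ0 : 0 ≤ ρ := by positivity
  have e1 : (B.1 - u) ^ 2 + (B.2 - v) ^ 2 = ρ := by
    have : 2 * k * (u - A.1) = (C.2 - A.2) * nq (B - A) - (B.2 - A.2) * nq (C - A) := by
      rw [hu]; field_simp; ring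
    have h2 : 2 * k * (v - A.2) = (B.1 - A.1) * nq (C - A) - (C.1 - A.1) * nq (B - A) := by
      rw [hv]; field_simp; ring
    have h3 : 2 * k * ((B.1 - u) ^ 2 + (B.2 - v) ^ 2 - ρ) = 0 := by
      have : 2 * k * ((B.1 - u) ^ 2 + (B.2 - v) ^ 2 - ρ) =
          2 * k * ((B.1 - A.1) ^ 2 + (B.2 - A.2) ^ 2) -
          2 * (B.1 - A.1) * (2 * k * (u - A.1)) - 2 * (B.2 - A.2) * (2 * k * (v - A.2)) := by
        rw [hρ]; ring
      rw [this, ‹2 * k * (u - A.1) = _›, h2, hk]
      simp only [cr, nq, Prod.fst_sub, Prod.snd_sub]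
      ring
    rcases mul_eq_zero.1 h3 with h4 | h4
    · exact absurd h4 (by positivity)
    · linarith
  have e2 : (C.1 - u) ^ 2 + (C.2 - v) ^ 2 = ρ := by
    have : 2 * k * (u - A.1) = (C.2 - A.2) * nq (B - A) - (B.2 - A.2) * nq (C - A) := by
      rw [hu]; field_simp; ring
    have h2 : 2 * k * (v - A.2) = (B.1 - A.1) * nq (C - A) - (C.1 - A.1) * nq (B - A) := by
      rw [hv]; field_simp; ring
    have h3 : 2 * k * ((C.1 - u) ^ 2 + (C.2 - v) ^ 2 - ρ) = 0 := by
      have : 2 * k * ((C.1 - u) ^ 2 + (C.2 - v) ^ 2 - ρ) =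
          2 * k * ((C.1 - A.1) ^ 2 + (C.2 - A.2) ^ 2) -
          2 * (C.1 - A.1) * (2 * k * (u - A.1)) - 2 * (C.2 - A.2) * (2 * k * (v - A.2)) := by
        rw [hρ]; ring
      rw [this, ‹2 * k * (u - A.1) = _›, h2, hk]
      simp only [cr, nq, Prod.fst_sub, Prod.snd_sub]
      ring
    rcases mul_eq_zero.1 h3 with h4 | h4
    · exact absurd h4 (by positivity)
    · linarith
  refine ⟨⟨!₂[u, v], Real.sqrt ρ⟩, ?_, ?_, ?_⟩ <;> rw [mem_sph] <;>
    refine ⟨Real.sqrt_nonneg _, ?_⟩ <;> simp only [Real.sq_sqrt hρ0] <;> simp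
  · rfl
  · exact e1
  · exact e2

lemma sphere_unique {S T : EuclideanGeometry.Sphere Plane} {a b c : Plane}
    (ha : a ∈ S) (hb : b ∈ S) (hc : c ∈ S) (ha' : a ∈ T) (hb' : b ∈ T) (hc' : c ∈ T)
    (hab : a ≠ b) (hac : a ≠ c) (hbc : b ≠ c) : S = T := by
  have hcr := (trace_eq (P := ∅) ha hb hc hab hac hbc).1
  rw [mem_sph] at ha hb hc ha' hb' hc'
  obtain ⟨r1, ha⟩ := ha
  obtain ⟨_, hb⟩ := hb
  obtain ⟨_, hc⟩ := hc
  obtain ⟨r2, ha'⟩ := ha'
  obtain ⟨_, hb'⟩ := hb'
  obtain ⟨_, hc'⟩ := hc'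
  have h0 : S.center 0 = T.center 0 := by
    have : cr (φ a) (φ b) (φ c) * (S.center 0 - T.center 0) = 0 := by
      simp only [cr]
      linear_combination (-(1 / 2 : ℝ)) * (((φ c).2 - (φ a).2) * ((hb - ha) - (hb' - ha')) -
        ((φ b).2 - (φ a).2) * ((hc - ha) - (hc' - ha')))
    rcases mul_eq_zero.1 this with h | h
    · exact absurd h hcr
    · linarith
  have h1 : S.center 1 = T.center 1 := by
    have : cr (φ a) (φ b) (φ c) * (S.center 1 - T.center 1) = 0 := by
      simp only [cr]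
      linear_combination (-(1 / 2 : ℝ)) * (((φ b).1 - (φ a).1) * ((hc - ha) - (hc' - ha')) -
        ((φ c).1 - (φ a).1) * ((hb - ha) - (hb' - ha')))
    rcases mul_eq_zero.1 this with h | h
    · exact absurd h hcr
    · linarith
  have hcen : S.center = T.center := by
    ext i
    fin_cases i
    · exact h0
    · exact h1
  have hr : S.radius = T.radius := by
    rw [h0, h1, ha'] at ha
    exact ((sq_eq_sq₀ r2 r1).1 ha).symm
  ext1
  · exact hcen
  · exact hr

theorem circleCount_eq (P : Finset Plane) : circleCount P = (circs (P.image φ)).card := by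
  have himg : (fun S => (trace P S).image φ) ''
      {S : EuclideanGeometry.Sphere Plane | 3 ≤ {x : Plane | x ∈ P ∧ x ∈ S}.ncard} =
      (circs (P.image φ) : Set (Finset Pt)) := by
    ext G
    simp only [Set.mem_image, Set.mem_setOf_eq, mem_coe]
    constructor
    · rintro ⟨S, hS, rfl⟩
      obtain ⟨a, ha, b, hb, c, hc, hab, hac, hbc, ha', hb', hc'⟩ := exists_three hS
      obtain ⟨h1, h2⟩ := trace_eq (P := P) ha' hb' hc' hab hac hbc
      rw [h2]
      exact blk_mem_circs (mem_image_of_mem _ ha) (mem_image_of_mem _ hb)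
        (mem_image_of_mem _ hc) h1
    · intro hG
      obtain ⟨a', ha', b', hb', c', hc', hne, rfl⟩ := mem_circs.1 hG
      rw [mem_image] at ha' hb' hc'
      obtain ⟨a, ha, rfl⟩ := ha'
      obtain ⟨b, hb, rfl⟩ := hb'
      obtain ⟨c, hc, rfl⟩ := hc'
      obtain ⟨hab, hac, hbc⟩ := ne_of_cr hne
      have hab' : a ≠ b := fun h => hab (by rw [h])
      have hac' : a ≠ c := fun h => hac (by rw [h])
      have hbc' : b ≠ c := fun h => hbc (by rw [h])
      obtain ⟨S, h1, h2, h3⟩ := exists_circle hne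
      refine ⟨S, ?_, (trace_eq (P := P) h1 h2 h3 hab' hac' hbc').2⟩
      rw [ncard_trace]
      have hsub : ({a, b, c} : Finset Plane) ⊆ trace P S := by
        intro x hx
        simp only [mem_insert, mem_singleton] at hx
        rw [trace, mem_filter]
        rcases hx with rfl | rfl | rfl
        · exact ⟨ha, h1⟩
        · exact ⟨hb, h2⟩
        · exact ⟨hc, h3⟩
      have := card_le_card hsub
      rwa [card_eq_three.2 ⟨a, b, c, hab', hac', hbc', rfl⟩] at this
  have hinj : Set.InjOn (fun S => (trace P S).image φ)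
      {S : EuclideanGeometry.Sphere Plane | 3 ≤ {x : Plane | x ∈ P ∧ x ∈ S}.ncard} := by
    intro S hS T hT h
    obtain ⟨a, ha, b, hb, c, hc, hab, hac, hbc, ha', hb', hc'⟩ := exists_three hS
    have h' := image_injective φ_inj h
    have key : ∀ x ∈ P, x ∈ S → x ∈ T := by
      intro x hx hxS
      have : x ∈ trace P S := by rw [trace, mem_filter]; exact ⟨hx, hxS⟩
      rw [h', trace, mem_filter] at this
      exact this.2
    exact sphere_unique ha' hb' hc' (key a ha ha') (key b hb hb') (key c hc hc') hab hac hbc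
  rw [circleCount, ← Set.ncard_image_of_injOn hinj, himg, Set.ncard_coe_finset]

lemma collinear_iff_cr {P : Finset Plane} (h3 : 3 ≤ P.card) :
    Collinear ℝ (P : Set Plane) ↔ P.image φ ∈ lins (P.image φ) := by
  obtain ⟨a, ha, b, hb, c, hc, hab, hac, hbc⟩ := two_lt_card.1 (show 2 < P.card from h3)
  have hab' : φ a ≠ φ b := fun h => hab (φ_inj h)
  have hcard : (P.image φ).card = P.card := card_image_of_injective _ φ_inj
  constructor
  · intro h
    rw [lins, mem_filter, hcard]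
    refine ⟨?_, h3⟩
    have heq : P.image φ = lineOf (P.image φ) (φ a) (φ b) := by
      ext z
      rw [mem_lineOf]
      constructor
      · intro hz
        refine ⟨hz, ?_⟩
        rw [mem_image] at hz
        obtain ⟨d, hd, rfl⟩ := hz
        obtain ⟨v, hv⟩ := (collinear_iff_of_mem (k := ℝ) (p₀ := a) (mem_coe.2 ha)).1 h
        obtain ⟨s, hs⟩ := hv b (mem_coe.2 hb)
        obtain ⟨t, ht⟩ := hv d (mem_coe.2 hd)
        rw [hs, ht]
        simp only [φ, cr, vadd_eq_add, PiLp.add_apply, PiLp.smul_apply, smul_eq_mul]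
        ring
      · exact fun h => h.1
    rw [heq]
    convert lineOf_mem_lines (mem_image_of_mem φ ha) (mem_image_of_mem φ hb) hab' using 1
    rw [← heq]
  · intro h
    rw [collinear_iff_of_mem (k := ℝ) (p₀ := a) (mem_coe.2 ha)]
    refine ⟨b - a, fun d hd => ?_⟩
    have h1 := lin_cr (mem_filter.1 h).1 (mem_image_of_mem φ ha) (mem_image_of_mem φ hb)
      (mem_image_of_mem φ (mem_coe.1 hd))
    obtain ⟨s, hs1, hs2⟩ := exists_param hab' h1
    refine ⟨s, ?_⟩
    simp only [φ] at hs1 hs2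
    ext i
    fin_cases i
    · simp only [vadd_eq_add, PiLp.add_apply, PiLp.smul_apply, smul_eq_mul, PiLp.sub_apply]
      simp only [Fin.zero_eta, Fin.isValue]
      linarith
    · simp only [vadd_eq_add, PiLp.add_apply, PiLp.smul_apply, smul_eq_mul, PiLp.sub_apply]
      simp only [Fin.mk_one, Fin.isValue]
      linarith

lemma cospherical_iff {P : Finset Plane} (h3 : 3 ≤ P.card) :
    EuclideanGeometry.Cospherical (P : Set Plane) ↔ P.image φ ∈ circs (P.image φ) := by
  obtain ⟨a, ha, b, hb, c, hc, hab, hac, hbc⟩ := two_lt_card.1 (show 2 < P.card from h3)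
  constructor
  · rintro ⟨z, r, h⟩
    set S : EuclideanGeometry.Sphere Plane := ⟨z, r⟩ with hS
    have hmem : ∀ x ∈ P, x ∈ S := fun x hx => by
      rw [EuclideanGeometry.mem_sphere]; exact h x (mem_coe.2 hx)
    obtain ⟨h1, h2⟩ := trace_eq (P := P) (hmem a ha) (hmem b hb) (hmem c hc) hab hac hbc
    have h4 : trace P S = P := by
      rw [trace]; exact filter_true_of_mem hmem
    rw [h4] at h2
    rw [mem_circs]
    exact ⟨_, mem_image_of_mem _ ha, _, mem_image_of_mem _ hb, _, mem_image_of_mem _ hc, h1, h2⟩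
  · intro h
    have hcr := circ_cr h (mem_image_of_mem φ ha) (mem_image_of_mem φ hb)
      (mem_image_of_mem φ hc) (fun h => hab (φ_inj h)) (fun h => hac (φ_inj h))
      (fun h => hbc (φ_inj h))
    obtain ⟨S, h1, h2, h4⟩ := exists_circle hcr
    have h5 := (trace_eq (P := P) h1 h2 h4 hab hac hbc).2
    have h6 := block_eq_blk (circ_mem_blocks h) (mem_image_of_mem φ ha) (mem_image_of_mem φ hb)
      (mem_image_of_mem φ hc) (fun h => hab (φ_inj h)) (fun h => hac (φ_inj h))
      (fun h => hbc (φ_inj h))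
    rw [← h6] at h5
    have h7 := image_injective φ_inj h5
    refine ⟨S.center, S.radius, fun p hp => ?_⟩
    rw [← EuclideanGeometry.mem_sphere]
    have h8 : p ∈ trace P S := by rw [h7]; exact mem_coe.1 hp
    exact (mem_filter.1 h8).2

theorem admissible_iff {P : Finset Plane} (h3 : 3 ≤ P.card) :
    Admissible P ↔ Adm (P.image φ) := by
  rw [Admissible, Adm, collinear_iff_cr h3, cospherical_iff h3, blocks, mem_union,
    card_image_of_injective _ φ_inj]
  tauto

end

end Run7.h823.Circ
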