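import Mathlib
import Pool.Agent.Run7.h823.Circ.Count

/-! Lower bounds for the number of circles, by linear programming duality. -/

namespace Run7.h823.Circ

open Finset Pool.Agent.Helper543.Melchior

noncomputable section

open scoped Classical

lemma sum_blocks {P : Finset Pt} (f : Finset Pt → ℤ) :
    ∑ G ∈ blocks P, f G = ∑ G ∈ circs P, f G + ∑ G ∈ lins P, f G :=
  sum_union (circs_disjoint_lins P)

lemma sum_blocks_erase {P C : Finset Pt} (f : Finset Pt → ℤ) :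
    ∑ G ∈ (blocks P).erase C, f G =
      ∑ G ∈ (circs P).erase C, f G + ∑ G ∈ (lins P).erase C, f G := by
  have : (blocks P).erase C = (circs P).erase C ∪ (lins P).erase C := by
    rw [blocks]; ext G; simp only [mem_erase, mem_union]; tauto
  rw [this]
  apply sum_union
  exact disjoint_of_subset_left (erase_subset _ _)
    (disjoint_of_subset_right (erase_subset _ _) (circs_disjoint_lins P))

lemma six_choose_three (k : ℕ) : 6 * ((k.choose 3 : ℕ) : ℤ) = k * ((k : ℤ) - 1) * ((k : ℤ) - 2) := by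
  induction k with
  | zero => simp
  | succ k ih =>
    rw [Nat.choose_succ_succ' k 2]
    have h2 : 2 * ((k.choose 2 : ℕ) : ℤ) = k * ((k : ℤ) - 1) := by
      clear ih
      induction k with
      | zero => simp
      | succ k ih =>
        rw [Nat.choose_succ_succ' k 1, Nat.choose_one_right]
        push_cast
        linarith
    push_cast
    linarith

lemma two_choose_two (k : ℕ) : 2 * ((k.choose 2 : ℕ) : ℤ) = k * ((k : ℤ) - 1) := by
  induction k with
  | zero => simp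
  | succ k ih =>
    rw [Nat.choose_succ_succ' k 1, Nat.choose_one_right]
    push_cast
    linarith

/-- the bound coming from all the triples and the two Melchior inequalities -/
theorem bound_one {P : Finset Pt} (h : Adm P) {K : ℕ} (hK : 3 ≤ K)
    (hle : ∀ G ∈ blocks P, G.card ≤ K) :
    3 * ((K : ℤ) - 1) * P.card * (P.card - 1) * (P.card - 2) + 9 * P.card * ((K : ℤ) ^ 2 + 2) -
      (K : ℤ) * (K + 2) * P.card * (P.card - 1) ≤ 9 * (K : ℤ) * (K + 2) * (circs P).card := by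
  have h1 := count_all (P := P)
  have h2 := mel_one_sum h (Subset.refl P)
  have h3 := mel_two_sum h (Subset.refl P)
  have hin : ∀ G ∈ blocks P, G ∩ P = G := fun G hG => inter_eq_left.2 (block_subset hG)
  have h1' : ∑ G ∈ blocks P, (6 * (G.card.choose 3 : ℤ)) = 6 * (P.card.choose 3 : ℤ) := by
    rw [← mul_sum, ← h1]; push_cast; rfl
  have h2' : 3 * (P.card : ℤ) ≤ ∑ G ∈ blocks P, (G.card : ℤ) * (4 - (G.card : ℤ)) := by
    refine h2.trans (le_of_eq (sum_congr rfl fun G hG => ?_))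
    rw [hin G hG]
  have h3' : (P.card : ℤ) * (3 - ((P.card : ℤ) - 1)) ≤
      ∑ G ∈ circs P, (G.card : ℤ) * (4 - (G.card : ℤ)) +
      ∑ G ∈ lins P, (G.card : ℤ) * (4 - 2 * (G.card : ℤ)) := by
    refine h3.trans (le_of_eq ?_)
    congr 1
    · exact sum_congr rfl fun G hG => by rw [hin G (circ_mem_blocks hG)]
    · exact sum_congr rfl fun G hG => by rw [hin G (lin_mem_blocks hG)]
  rw [sum_blocks] at h1' h2'
  rw [six_choose_three] at h1'
  have hKz : (3 : ℤ) ≤ K := by exact_mod_cast hK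
  have hc : ∑ G ∈ circs P, (3 * ((K : ℤ) - 1) * (6 * (G.card.choose 3 : ℤ)) +
      (3 * (K : ℤ) ^ 2 + 6) * ((G.card : ℤ) * (4 - (G.card : ℤ)))) ≤
      ∑ G ∈ circs P, (9 * (K : ℤ) * (K + 2)) := by
    apply sum_le_sum
    intro G hG
    have h3k : (3 : ℤ) ≤ G.card := by exact_mod_cast three_le_block (circ_mem_blocks hG)
    have hkK : (G.card : ℤ) ≤ K := by exact_mod_cast hle G (circ_mem_blocks hG)
    rw [six_choose_three]
    set k : ℤ := (G.card : ℤ) with hk
    have h5 : 0 ≤ (k - 3) * (K - k) * (((K : ℤ) - 1) * k - (K + 2)) := by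
      apply mul_nonneg
      · exact mul_nonneg (by linarith) (by linarith)
      · nlinarith
    nlinarith [h5]
  have hl : ∑ G ∈ lins P, (3 * ((K : ℤ) - 1) * (6 * (G.card.choose 3 : ℤ)) +
      (2 * (K : ℤ) ^ 2 - 2 * K + 6) * ((G.card : ℤ) * (4 - (G.card : ℤ))) +
      (K : ℤ) * (K + 2) * ((G.card : ℤ) * (4 - 2 * (G.card : ℤ)))) ≤ 0 := by
    apply sum_nonpos
    intro G hG
    have h3k : (3 : ℤ) ≤ G.card := by exact_mod_cast three_le_block (lin_mem_blocks hG)
    have hkK : (G.card : ℤ) ≤ K := by exact_mod_cast hle G (lin_mem_blocks hG)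
    rw [six_choose_three]
    set k : ℤ := (G.card : ℤ) with hk
    have h5 : 0 ≤ k * (k - 3) * (4 * (K : ℤ) ^ 2 + 2 * K + 6 - 3 * (K - 1) * k) := by
      apply mul_nonneg
      · exact mul_nonneg (by linarith) (by linarith)
      · nlinarith
    nlinarith [h5]
  simp only [sum_add_distrib, ← mul_sum, sum_const, nsmul_eq_mul] at hc hl h1'
  have hA : (0 : ℤ) ≤ 2 * (K : ℤ) ^ 2 - 2 * K + 6 := by nlinarith
  have hB : (0 : ℤ) ≤ (K : ℤ) * (K + 2) := by nlinarith
  have h2'' := mul_le_mul_of_nonneg_left h2' hA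
  have h3'' := mul_le_mul_of_nonneg_left h3' hB
  have h1'' := congrArg (fun t => 3 * ((K : ℤ) - 1) * t) h1'
  linarith [h1'', h2'', h3'', hc, hl]

/-- the number of circles, in terms of dual multipliers; the case of a circle `C` -/
theorem cert_circ {P C : Finset Pt} (h : Adm P) (hC : C ∈ circs P) {K m n : ℕ}
    (hK : C.card = K) (hm : (P \ C).card = m) (hn : P.card = n)
    (hle : ∀ G ∈ blocks P, G.card ≤ K) {s a1 a2 a3 a4 a5 b1 b2 b3 b4 : ℤ}
    (h4 : 0 ≤ a4) (h5 : 0 ≤ a5) (h6 : 0 ≤ b1) (h7 : 0 ≤ b2) (h8 : 0 ≤ b3) (h9 : 0 ≤ b4)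
    (hc : ∀ i j : ℕ, i ≤ 2 → j ≤ m → 3 ≤ i + j → i + j ≤ K →
      a1 * (i.choose 2 * j : ℕ) + a2 * (i * j.choose 2 : ℕ) + a3 * (j.choose 3 : ℕ) -
      a4 * (if i = 2 then (j.choose 2 : ℤ) else 0) + (b1 + b3) * (i * (4 - ((i : ℤ) + j))) +
      (b2 + b4) * (j * (4 - ((i : ℤ) + j))) ≤ s)
    (hl : ∀ i j : ℕ, i ≤ 2 → j ≤ m → 3 ≤ i + j → i + j ≤ K →
      a1 * (i.choose 2 * j : ℕ) + a2 * (i * j.choose 2 : ℕ) + a3 * (j.choose 3 : ℕ) -
      a4 * (if i = 2 then (j.choose 2 : ℤ) else 0) - a5 * (if i = 2 then (j : ℤ) else 0) +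
      b1 * (i * (4 - ((i : ℤ) + j))) + b2 * (j * (4 - ((i : ℤ) + j))) +
      b3 * (i * (4 - 2 * ((i : ℤ) + j))) + b4 * (j * (4 - 2 * ((i : ℤ) + j))) ≤ 0) :
    a1 * (K.choose 2 * m : ℕ) + a2 * (K * m.choose 2 : ℕ) + a3 * (m.choose 3 : ℕ) -
      a4 * (m.choose 2 * (K / 2) : ℕ) - a5 * (m * (K / 2) : ℕ) +
      b1 * (3 * K - K * (4 - K)) + b2 * (3 * m) +
      b3 * (K * (4 - (n : ℤ)) - K * (4 - K)) + b4 * (m * (4 - (n : ℤ))) ≤
      s * ((circs P).card - 1) := by
  have hCb := circ_mem_blocks hC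
  have hCl : C ∉ lins P := disjoint_left.1 (circs_disjoint_lins P) hC
  have hCP : C ⊆ P := block_subset hCb
  have e1 := congrArg (fun t : ℕ => (t : ℤ)) (count_two hCb)
  have e2 := congrArg (fun t : ℕ => (t : ℤ)) (count_one hCb)
  have e3 := congrArg (fun t : ℕ => (t : ℤ)) (count_zero hCb)
  have e4 : ∑ G ∈ (blocks P).erase C,
      (if (G ∩ C).card = 2 then ((G \ C).card.choose 2 : ℤ) else 0) ≤
      ((m.choose 2 * (K / 2) : ℕ) : ℤ) := by
    rw [← sum_filter]
    have := count_match (P := P) (C := C)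
    rw [hm, hK] at this
    exact_mod_cast this
  have e5 : ∑ G ∈ (lins P).erase C,
      (if (G ∩ C).card = 2 then ((G \ C).card : ℤ) else 0) ≤
      ((m * (K / 2) : ℕ) : ℤ) := by
    rw [← sum_filter]
    have := count_match_lin (P := P) (C := C)
    rw [hm, hK] at this
    exact_mod_cast this
  have e6 := mel_one_sum h hCP
  have e7 := mel_one_sum h (sdiff_subset (s := P) (t := C))
  have e8 := mel_two_sum h hCP
  have e9 := mel_two_sum h (sdiff_subset (s := P) (t := C))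
  have hs : ∀ G ∈ blocks P, (G ∩ (P \ C)).card = (G \ C).card := by
    intro G hG
    congr 1
    ext x
    simp only [mem_inter, mem_sdiff]
    constructor
    · rintro ⟨h1, _, h3⟩; exact ⟨h1, h3⟩
    · rintro ⟨h1, h3⟩; exact ⟨h1, block_subset hG h1, h3⟩
  have hCC : C ∩ C = C := inter_self C
  have hCd : (C \ C).card = 0 := by simp
  rw [← add_sum_erase _ _ hCb] at e6 e7
  rw [← add_sum_erase _ _ hC] at e8 e9
  rw [← erase_eq_of_notMem hCl] at e8 e9
  rw [hs C hCb, hCd] at e7 e9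
  rw [hCC] at e6 e8
  simp only [hK, hm, hn, Nat.cast_zero, zero_mul, zero_add] at e1 e2 e3 e6 e7 e8 e9
  simp only [Nat.cast_sum] at e1 e2 e3
  rw [sum_blocks_erase] at e1 e2 e3 e4 e6 e7
  have tc : ∀ G ∈ (circs P).erase C, G ∈ blocks P ∧ G ≠ C := fun G hG =>
    ⟨circ_mem_blocks (mem_erase.1 hG).2, (mem_erase.1 hG).1⟩
  have tl : ∀ G ∈ (lins P).erase C, G ∈ blocks P ∧ G ≠ C := fun G hG =>
    ⟨lin_mem_blocks (mem_erase.1 hG).2, (mem_erase.1 hG).1⟩
  have bd : ∀ G, G ∈ blocks P → G ≠ C → (G ∩ C).card ≤ 2 ∧ (G \ C).card ≤ m ∧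
      3 ≤ (G ∩ C).card + (G \ C).card ∧ (G ∩ C).card + (G \ C).card ≤ K := by
    intro G hG hne
    refine ⟨inter_card_le hCb hG hne, ?_, ?_, ?_⟩
    · rw [← hm]; exact card_le_card (sdiff_subset_sdiff (block_subset hG) (Subset.refl _))
    · rw [card_split]; exact three_le_block hG
    · rw [card_split]; exact hle G hG
  have fc : ∑ G ∈ (circs P).erase C, (a1 * ((G ∩ C).card.choose 2 * (G \ C).card : ℕ) +
      a2 * ((G ∩ C).card * (G \ C).card.choose 2 : ℕ) + a3 * ((G \ C).card.choose 3 : ℕ) -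
      a4 * (if (G ∩ C).card = 2 then ((G \ C).card.choose 2 : ℤ) else 0) +
      (b1 + b3) * ((G ∩ C).card * (4 - (G.card : ℤ))) +
      (b2 + b4) * ((G \ C).card * (4 - (G.card : ℤ)))) ≤ ∑ G ∈ (circs P).erase C, s := by
    apply sum_le_sum
    intro G hG
    obtain ⟨t1, t2⟩ := tc G hG
    obtain ⟨t3, t4, t5, t6⟩ := bd G t1 t2
    have := hc _ _ t3 t4 t5 t6
    rw [← card_split G C]
    push_cast at this ⊢
    linarith
  have fl : ∑ G ∈ (lins P).erase C, (a1 * ((G ∩ C).card.choose 2 * (G \ C).card : ℕ) +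
      a2 * ((G ∩ C).card * (G \ C).card.choose 2 : ℕ) + a3 * ((G \ C).card.choose 3 : ℕ) -
      a4 * (if (G ∩ C).card = 2 then ((G \ C).card.choose 2 : ℤ) else 0) -
      a5 * (if (G ∩ C).card = 2 then ((G \ C).card : ℤ) else 0) +
      b1 * ((G ∩ C).card * (4 - (G.card : ℤ))) + b2 * ((G \ C).card * (4 - (G.card : ℤ))) +
      b3 * ((G ∩ C).card * (4 - 2 * (G.card : ℤ))) +
      b4 * ((G \ C).card * (4 - 2 * (G.card : ℤ)))) ≤ 0 := by
    apply sum_nonpos
    intro G hG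
    obtain ⟨t1, t2⟩ := tl G hG
    obtain ⟨t3, t4, t5, t6⟩ := bd G t1 t2
    have := hl _ _ t3 t4 t5 t6
    rw [← card_split G C]
    push_cast at this ⊢
    linarith
  rw [sum_const, nsmul_eq_mul] at fc
  simp only [sum_add_distrib, sum_sub_distrib, ← mul_sum] at fc fl
  have hcard : (((circs P).erase C).card : ℤ) = (circs P).card - 1 := by
    rw [card_erase_of_mem hC]
    have : 0 < (circs P).card := card_pos.2 ⟨C, hC⟩
    omega
  rw [hcard] at fc
  have e7' : 3 * (m : ℤ) ≤ ∑ G ∈ (circs P).erase C, ((G \ C).card : ℤ) * (4 - (G.card : ℤ)) +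
      ∑ G ∈ (lins P).erase C, ((G \ C).card : ℤ) * (4 - (G.card : ℤ)) := by
    refine e7.trans (le_of_eq ?_)
    congr 1
    · exact sum_congr rfl fun G hG => by rw [hs G (tc G hG).1]
    · exact sum_congr rfl fun G hG => by rw [hs G (tl G hG).1]
  have e9' : (m : ℤ) * (3 - ((n : ℤ) - 1)) ≤
      ∑ G ∈ (circs P).erase C, ((G \ C).card : ℤ) * (4 - (G.card : ℤ)) +
      ∑ G ∈ (lins P).erase C, ((G \ C).card : ℤ) * (4 - 2 * (G.card : ℤ)) := by
    refine e9.trans (le_of_eq ?_)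
    congr 1
    · exact sum_congr rfl fun G hG => by rw [hs G (tc G hG).1]
    · exact sum_congr rfl fun G hG => by rw [hs G (tl G hG).1]
  have f1 := congrArg (fun t => a1 * t) e1
  have f2 := congrArg (fun t => a2 * t) e2
  have f3 := congrArg (fun t => a3 * t) e3
  have f4 := mul_le_mul_of_nonneg_left e4 h4
  have f5 := mul_le_mul_of_nonneg_left e5 h5
  have f6 := mul_le_mul_of_nonneg_left e6 h6
  have f7 := mul_le_mul_of_nonneg_left e7' h7
  have f8 := mul_le_mul_of_nonneg_left e8 h8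
  have f9 := mul_le_mul_of_nonneg_left e9' h9
  simp only [mul_add, mul_sub] at f1 f2 f3 f4 f5 f6 f7 f8 f9 fc fl ⊢
  linarith

/-- the number of circles, in terms of dual multipliers; the case of a line `C` -/
theorem cert_lin {P C : Finset Pt} (h : Adm P) (hC : C ∈ lins P) {K m n : ℕ}
    (hK : C.card = K) (hm : (P \ C).card = m) (hn : P.card = n)
    (hle : ∀ G ∈ blocks P, G.card ≤ K) {s a1 a2 a3 a4 b1 b2 b3 b4 : ℤ}
    (h4 : 0 ≤ a4) (h6 : 0 ≤ b1) (h7 : 0 ≤ b2) (h8 : 0 ≤ b3) (h9 : 0 ≤ b4)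
    (hc : ∀ i j : ℕ, i ≤ 2 → j ≤ m → 3 ≤ i + j → i + j ≤ K →
      a1 * (i.choose 2 * j : ℕ) + a2 * (i * j.choose 2 : ℕ) + a3 * (j.choose 3 : ℕ) -
      a4 * (if i = 2 then (j.choose 2 : ℤ) else 0) + (b1 + b3) * (i * (4 - ((i : ℤ) + j))) +
      (b2 + b4) * (j * (4 - ((i : ℤ) + j))) ≤ s)
    (hl : ∀ i j : ℕ, i ≤ 1 → j ≤ m → 3 ≤ i + j → i + j ≤ K →
      a1 * (i.choose 2 * j : ℕ) + a2 * (i * j.choose 2 : ℕ) + a3 * (j.choose 3 : ℕ) -
      a4 * (if i = 2 then (j.choose 2 : ℤ) else 0) +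
      b1 * (i * (4 - ((i : ℤ) + j))) + b2 * (j * (4 - ((i : ℤ) + j))) +
      b3 * (i * (4 - 2 * ((i : ℤ) + j))) + b4 * (j * (4 - 2 * ((i : ℤ) + j))) ≤ 0) :
    a1 * (K.choose 2 * m : ℕ) + a2 * (K * m.choose 2 : ℕ) + a3 * (m.choose 3 : ℕ) -
      a4 * (m.choose 2 * (K / 2) : ℕ) +
      b1 * (3 * K - K * (4 - K)) + b2 * (3 * m) +
      b3 * (K * (4 - (n : ℤ)) - K * (4 - 2 * K)) + b4 * (m * (4 - (n : ℤ))) ≤
      s * (circs P).card := by
  have hCb := lin_mem_blocks hC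
  have hCl : C ∉ circs P := fun h' => disjoint_left.1 (circs_disjoint_lins P) h' hC
  have hCP : C ⊆ P := block_subset hCb
  have e1 := congrArg (fun t : ℕ => (t : ℤ)) (count_two hCb)
  have e2 := congrArg (fun t : ℕ => (t : ℤ)) (count_one hCb)
  have e3 := congrArg (fun t : ℕ => (t : ℤ)) (count_zero hCb)
  have e4 : ∑ G ∈ (blocks P).erase C,
      (if (G ∩ C).card = 2 then ((G \ C).card.choose 2 : ℤ) else 0) ≤
      ((m.choose 2 * (K / 2) : ℕ) : ℤ) := by
    rw [← sum_filter]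
    have := count_match (P := P) (C := C)
    rw [hm, hK] at this
    exact_mod_cast this
  have e6 := mel_one_sum h hCP
  have e7 := mel_one_sum h (sdiff_subset (s := P) (t := C))
  have e8 := mel_two_sum h hCP
  have e9 := mel_two_sum h (sdiff_subset (s := P) (t := C))
  have hs : ∀ G ∈ blocks P, (G ∩ (P \ C)).card = (G \ C).card := by
    intro G hG
    congr 1
    ext x
    simp only [mem_inter, mem_sdiff]
    constructor
    · rintro ⟨h1, _, h3⟩; exact ⟨h1, h3⟩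
    · rintro ⟨h1, h3⟩; exact ⟨h1, block_subset hG h1, h3⟩
  have hCC : C ∩ C = C := inter_self C
  have hCd : (C \ C).card = 0 := by simp
  rw [← add_sum_erase _ _ hCb] at e6 e7
  rw [← add_sum_erase (lins P) _ hC] at e8 e9
  rw [← erase_eq_of_notMem hCl] at e8 e9
  rw [hs C hCb, hCd] at e7 e9
  rw [hCC] at e6 e8
  simp only [hK, hm, hn, Nat.cast_zero, zero_mul, zero_add] at e1 e2 e3 e6 e7 e8 e9
  simp only [Nat.cast_sum] at e1 e2 e3
  rw [sum_blocks_erase] at e1 e2 e3 e4 e6 e7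
  have tc : ∀ G ∈ (circs P).erase C, G ∈ blocks P ∧ G ≠ C := fun G hG =>
    ⟨circ_mem_blocks (mem_erase.1 hG).2, (mem_erase.1 hG).1⟩
  have tl : ∀ G ∈ (lins P).erase C, G ∈ blocks P ∧ G ≠ C := fun G hG =>
    ⟨lin_mem_blocks (mem_erase.1 hG).2, (mem_erase.1 hG).1⟩
  have bd : ∀ G, G ∈ blocks P → G ≠ C → (G ∩ C).card ≤ 2 ∧ (G \ C).card ≤ m ∧
      3 ≤ (G ∩ C).card + (G \ C).card ∧ (G ∩ C).card + (G \ C).card ≤ K := by
    intro G hG hne
    refine ⟨inter_card_le hCb hG hne, ?_, ?_, ?_⟩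
    · rw [← hm]; exact card_le_card (sdiff_subset_sdiff (block_subset hG) (Subset.refl _))
    · rw [card_split]; exact three_le_block hG
    · rw [card_split]; exact hle G hG
  have fc : ∑ G ∈ (circs P).erase C, (a1 * ((G ∩ C).card.choose 2 * (G \ C).card : ℕ) +
      a2 * ((G ∩ C).card * (G \ C).card.choose 2 : ℕ) + a3 * ((G \ C).card.choose 3 : ℕ) -
      a4 * (if (G ∩ C).card = 2 then ((G \ C).card.choose 2 : ℤ) else 0) +
      (b1 + b3) * ((G ∩ C).card * (4 - (G.card : ℤ))) +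
      (b2 + b4) * ((G \ C).card * (4 - (G.card : ℤ)))) ≤ ∑ G ∈ (circs P).erase C, s := by
    apply sum_le_sum
    intro G hG
    obtain ⟨t1, t2⟩ := tc G hG
    obtain ⟨t3, t4, t5, t6⟩ := bd G t1 t2
    have := hc _ _ t3 t4 t5 t6
    rw [← card_split G C]
    push_cast at this ⊢
    linarith
  have fl : ∑ G ∈ (lins P).erase C, (a1 * ((G ∩ C).card.choose 2 * (G \ C).card : ℕ) +
      a2 * ((G ∩ C).card * (G \ C).card.choose 2 : ℕ) + a3 * ((G \ C).card.choose 3 : ℕ) -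
      a4 * (if (G ∩ C).card = 2 then ((G \ C).card.choose 2 : ℤ) else 0) +
      b1 * ((G ∩ C).card * (4 - (G.card : ℤ))) + b2 * ((G \ C).card * (4 - (G.card : ℤ))) +
      b3 * ((G ∩ C).card * (4 - 2 * (G.card : ℤ))) +
      b4 * ((G \ C).card * (4 - 2 * (G.card : ℤ)))) ≤ 0 := by
    apply sum_nonpos
    intro G hG
    obtain ⟨t1, t2⟩ := tl G hG
    obtain ⟨_, t4, t5, t6⟩ := bd G t1 t2
    have := hl _ _ (lin_inter_card_le hC (mem_erase.1 hG).2 t2) t4 t5 t6
    rw [← card_split G C]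
    push_cast at this ⊢
    linarith
  rw [sum_const, nsmul_eq_mul] at fc
  simp only [sum_add_distrib, sum_sub_distrib, ← mul_sum] at fc fl
  have hcard : (((circs P).erase C).card : ℤ) = (circs P).card := by
    rw [erase_eq_of_notMem hCl]
  rw [hcard] at fc
  have e7' : 3 * (m : ℤ) ≤ ∑ G ∈ (circs P).erase C, ((G \ C).card : ℤ) * (4 - (G.card : ℤ)) +
      ∑ G ∈ (lins P).erase C, ((G \ C).card : ℤ) * (4 - (G.card : ℤ)) := by
    refine e7.trans (le_of_eq ?_)
    congr 1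
    · exact sum_congr rfl fun G hG => by rw [hs G (tc G hG).1]
    · exact sum_congr rfl fun G hG => by rw [hs G (tl G hG).1]
  have e9' : (m : ℤ) * (3 - ((n : ℤ) - 1)) ≤
      ∑ G ∈ (circs P).erase C, ((G \ C).card : ℤ) * (4 - (G.card : ℤ)) +
      ∑ G ∈ (lins P).erase C, ((G \ C).card : ℤ) * (4 - 2 * (G.card : ℤ)) := by
    refine e9.trans (le_of_eq ?_)
    congr 1
    · exact sum_congr rfl fun G hG => by rw [hs G (tc G hG).1]
    · exact sum_congr rfl fun G hG => by rw [hs G (tl G hG).1]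
  have f1 := congrArg (fun t => a1 * t) e1
  have f2 := congrArg (fun t => a2 * t) e2
  have f3 := congrArg (fun t => a3 * t) e3
  have f4 := mul_le_mul_of_nonneg_left e4 h4
  have f6 := mul_le_mul_of_nonneg_left e6 h6
  have f7 := mul_le_mul_of_nonneg_left e7' h7
  have f8 := mul_le_mul_of_nonneg_left e8 h8
  have f9 := mul_le_mul_of_nonneg_left e9' h9
  simp only [mul_add, mul_sub] at f1 f2 f3 f4 f6 f7 f8 f9 fc fl ⊢
  linarith

end

end Run7.h823.Circ
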