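import Mathlib

/-! Numerical checks of dual multipliers. -/

namespace Run7.h823.Circ

theorem chk_15_6_cc : ∀ i, i < 3 → ∀ j, j < 10 → 3 ≤ i + j → i + j ≤ 6 →
      (21 : ℤ) * (i.choose 2 * j : ℕ) + 15 * (i * j.choose 2 : ℕ) + 9 * (j.choose 3 : ℕ) -
      0 * (if i = 2 then (j.choose 2 : ℤ) else 0) + (7 + 8) * (i * (4 - ((i : ℤ) + j))) +
      (13 + 8) * (j * (4 - ((i : ℤ) + j))) ≤ 72 := by decide +kernel

theorem chk_15_6_cl : ∀ i, i < 3 → ∀ j, j < 10 → 3 ≤ i + j → i + j ≤ 6 →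
      (21 : ℤ) * (i.choose 2 * j : ℕ) + 15 * (i * j.choose 2 : ℕ) + 9 * (j.choose 3 : ℕ) -
      0 * (if i = 2 then (j.choose 2 : ℤ) else 0) - 0 * (if i = 2 then (j : ℤ) else 0) +
      7 * (i * (4 - ((i : ℤ) + j))) + 13 * (j * (4 - ((i : ℤ) + j))) +
      8 * (i * (4 - 2 * ((i : ℤ) + j))) + 8 * (j * (4 - 2 * ((i : ℤ) + j))) ≤ 0 := by decide +kernel

theorem chk_15_6_lc : ∀ i, i < 3 → ∀ j, j < 10 → 3 ≤ i + j → i + j ≤ 6 →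
      (27 : ℤ) * (i.choose 2 * j : ℕ) + 9 * (i * j.choose 2 : ℕ) + 15 * (j.choose 3 : ℕ) -
      0 * (if i = 2 then (j.choose 2 : ℤ) else 0) + (9 + 4) * (i * (4 - ((i : ℤ) + j))) +
      (11 + 8) * (j * (4 - ((i : ℤ) + j))) ≤ 72 := by decide +kernel

theorem chk_15_6_ll : ∀ i, i < 2 → ∀ j, j < 10 → 3 ≤ i + j → i + j ≤ 6 →
      (27 : ℤ) * (i.choose 2 * j : ℕ) + 9 * (i * j.choose 2 : ℕ) + 15 * (j.choose 3 : ℕ) -
      0 * (if i = 2 then (j.choose 2 : ℤ) else 0)  +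
      9 * (i * (4 - ((i : ℤ) + j))) + 11 * (j * (4 - ((i : ℤ) + j))) +
      4 * (i * (4 - 2 * ((i : ℤ) + j))) + 8 * (j * (4 - 2 * ((i : ℤ) + j))) ≤ 0 := by decide +kernel

theorem chk_15_7_cc : ∀ i, i < 3 → ∀ j, j < 9 → 3 ≤ i + j → i + j ≤ 7 →
      (89 : ℤ) * (i.choose 2 * j : ℕ) + 64 * (i * j.choose 2 : ℕ) + 39 * (j.choose 3 : ℕ) -
      45 * (if i = 2 then (j.choose 2 : ℤ) else 0) + (20 + 29) * (i * (4 - ((i : ℤ) + j))) +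
      (45 + 29) * (j * (4 - ((i : ℤ) + j))) ≤ 261 := by decide +kernel

theorem chk_15_7_cl : ∀ i, i < 3 → ∀ j, j < 9 → 3 ≤ i + j → i + j ≤ 7 →
      (89 : ℤ) * (i.choose 2 * j : ℕ) + 64 * (i * j.choose 2 : ℕ) + 39 * (j.choose 3 : ℕ) -
      45 * (if i = 2 then (j.choose 2 : ℤ) else 0) - 0 * (if i = 2 then (j : ℤ) else 0) +
      20 * (i * (4 - ((i : ℤ) + j))) + 45 * (j * (4 - ((i : ℤ) + j))) +
      29 * (i * (4 - 2 * ((i : ℤ) + j))) + 29 * (j * (4 - 2 * ((i : ℤ) + j))) ≤ 0 := by decide +kernel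

theorem chk_15_7_lc : ∀ i, i < 3 → ∀ j, j < 9 → 3 ≤ i + j → i + j ≤ 7 →
      (98 : ℤ) * (i.choose 2 * j : ℕ) + 43 * (i * j.choose 2 : ℕ) + 48 * (j.choose 3 : ℕ) -
      30 * (if i = 2 then (j.choose 2 : ℤ) else 0) + (25 + 18) * (i * (4 - ((i : ℤ) + j))) +
      (40 + 28) * (j * (4 - ((i : ℤ) + j))) ≤ 252 := by decide +kernel

theorem chk_15_7_ll : ∀ i, i < 2 → ∀ j, j < 9 → 3 ≤ i + j → i + j ≤ 7 →
      (98 : ℤ) * (i.choose 2 * j : ℕ) + 43 * (i * j.choose 2 : ℕ) + 48 * (j.choose 3 : ℕ) -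
      30 * (if i = 2 then (j.choose 2 : ℤ) else 0)  +
      25 * (i * (4 - ((i : ℤ) + j))) + 40 * (j * (4 - ((i : ℤ) + j))) +
      18 * (i * (4 - 2 * ((i : ℤ) + j))) + 28 * (j * (4 - 2 * ((i : ℤ) + j))) ≤ 0 := by decide +kernel

theorem chk_16_7_cc : ∀ i, i < 3 → ∀ j, j < 10 → 3 ≤ i + j → i + j ≤ 7 →
      (89 : ℤ) * (i.choose 2 * j : ℕ) + 64 * (i * j.choose 2 : ℕ) + 39 * (j.choose 3 : ℕ) -
      45 * (if i = 2 then (j.choose 2 : ℤ) else 0) + (20 + 29) * (i * (4 - ((i : ℤ) + j))) +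
      (45 + 29) * (j * (4 - ((i : ℤ) + j))) ≤ 261 := by decide +kernel

theorem chk_16_7_cl : ∀ i, i < 3 → ∀ j, j < 10 → 3 ≤ i + j → i + j ≤ 7 →
      (89 : ℤ) * (i.choose 2 * j : ℕ) + 64 * (i * j.choose 2 : ℕ) + 39 * (j.choose 3 : ℕ) -
      45 * (if i = 2 then (j.choose 2 : ℤ) else 0) - 0 * (if i = 2 then (j : ℤ) else 0) +
      20 * (i * (4 - ((i : ℤ) + j))) + 45 * (j * (4 - ((i : ℤ) + j))) +
      29 * (i * (4 - 2 * ((i : ℤ) + j))) + 29 * (j * (4 - 2 * ((i : ℤ) + j))) ≤ 0 := by decide +kernel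

theorem chk_16_7_lc : ∀ i, i < 3 → ∀ j, j < 10 → 3 ≤ i + j → i + j ≤ 7 →
      (98 : ℤ) * (i.choose 2 * j : ℕ) + 43 * (i * j.choose 2 : ℕ) + 48 * (j.choose 3 : ℕ) -
      30 * (if i = 2 then (j.choose 2 : ℤ) else 0) + (25 + 18) * (i * (4 - ((i : ℤ) + j))) +
      (40 + 28) * (j * (4 - ((i : ℤ) + j))) ≤ 252 := by decide +kernel

theorem chk_16_7_ll : ∀ i, i < 2 → ∀ j, j < 10 → 3 ≤ i + j → i + j ≤ 7 →
      (98 : ℤ) * (i.choose 2 * j : ℕ) + 43 * (i * j.choose 2 : ℕ) + 48 * (j.choose 3 : ℕ) -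
      30 * (if i = 2 then (j.choose 2 : ℤ) else 0)  +
      25 * (i * (4 - ((i : ℤ) + j))) + 40 * (j * (4 - ((i : ℤ) + j))) +
      18 * (i * (4 - 2 * ((i : ℤ) + j))) + 28 * (j * (4 - 2 * ((i : ℤ) + j))) ≤ 0 := by decide +kernel

theorem chk_16_8_cc : ∀ i, i < 3 → ∀ j, j < 9 → 3 ≤ i + j → i + j ≤ 8 →
      (288 : ℤ) * (i.choose 2 * j : ℕ) + 72 * (i * j.choose 2 : ℕ) + 126 * (j.choose 3 : ℕ) -
      0 * (if i = 2 then (j.choose 2 : ℤ) else 0) + (37 + 80) * (i * (4 - ((i : ℤ) + j))) +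
      (118 + 80) * (j * (4 - ((i : ℤ) + j))) ≤ 720 := by decide +kernel

theorem chk_16_8_cl : ∀ i, i < 3 → ∀ j, j < 9 → 3 ≤ i + j → i + j ≤ 8 →
      (288 : ℤ) * (i.choose 2 * j : ℕ) + 72 * (i * j.choose 2 : ℕ) + 126 * (j.choose 3 : ℕ) -
      0 * (if i = 2 then (j.choose 2 : ℤ) else 0) - 0 * (if i = 2 then (j : ℤ) else 0) +
      37 * (i * (4 - ((i : ℤ) + j))) + 118 * (j * (4 - ((i : ℤ) + j))) +
      80 * (i * (4 - 2 * ((i : ℤ) + j))) + 80 * (j * (4 - 2 * ((i : ℤ) + j))) ≤ 0 := by decide +kernel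

theorem chk_16_8_lc : ∀ i, i < 3 → ∀ j, j < 9 → 3 ≤ i + j → i + j ≤ 8 →
      (483 : ℤ) * (i.choose 2 * j : ℕ) + (-3) * (i * j.choose 2 : ℕ) + 36 * (j.choose 3 : ℕ) -
      0 * (if i = 2 then (j.choose 2 : ℤ) else 0) + (157 + 65) * (i * (4 - ((i : ℤ) + j))) +
      (18 + 15) * (j * (4 - ((i : ℤ) + j))) ≤ 960 := by decide +kernel

theorem chk_16_8_ll : ∀ i, i < 2 → ∀ j, j < 9 → 3 ≤ i + j → i + j ≤ 8 →
      (483 : ℤ) * (i.choose 2 * j : ℕ) + (-3) * (i * j.choose 2 : ℕ) + 36 * (j.choose 3 : ℕ) -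
      0 * (if i = 2 then (j.choose 2 : ℤ) else 0)  +
      157 * (i * (4 - ((i : ℤ) + j))) + 18 * (j * (4 - ((i : ℤ) + j))) +
      65 * (i * (4 - 2 * ((i : ℤ) + j))) + 15 * (j * (4 - 2 * ((i : ℤ) + j))) ≤ 0 := by decide +kernel

theorem chk_17_8_cc : ∀ i, i < 3 → ∀ j, j < 10 → 3 ≤ i + j → i + j ≤ 8 →
      (27 : ℤ) * (i.choose 2 * j : ℕ) + 18 * (i * j.choose 2 : ℕ) + 9 * (j.choose 3 : ℕ) -
      0 * (if i = 2 then (j.choose 2 : ℤ) else 0) + (8 + 10) * (i * (4 - ((i : ℤ) + j))) +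
      (17 + 10) * (j * (4 - ((i : ℤ) + j))) ≤ 90 := by decide +kernel

theorem chk_17_8_cl : ∀ i, i < 3 → ∀ j, j < 10 → 3 ≤ i + j → i + j ≤ 8 →
      (27 : ℤ) * (i.choose 2 * j : ℕ) + 18 * (i * j.choose 2 : ℕ) + 9 * (j.choose 3 : ℕ) -
      0 * (if i = 2 then (j.choose 2 : ℤ) else 0) - 0 * (if i = 2 then (j : ℤ) else 0) +
      8 * (i * (4 - ((i : ℤ) + j))) + 17 * (j * (4 - ((i : ℤ) + j))) +
      10 * (i * (4 - 2 * ((i : ℤ) + j))) + 10 * (j * (4 - 2 * ((i : ℤ) + j))) ≤ 0 := by decide +kernel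

theorem chk_17_8_lc : ∀ i, i < 3 → ∀ j, j < 10 → 3 ≤ i + j → i + j ≤ 8 →
      (288 : ℤ) * (i.choose 2 * j : ℕ) + 72 * (i * j.choose 2 : ℕ) + 126 * (j.choose 3 : ℕ) -
      0 * (if i = 2 then (j.choose 2 : ℤ) else 0) + (82 + 35) * (i * (4 - ((i : ℤ) + j))) +
      (118 + 80) * (j * (4 - ((i : ℤ) + j))) ≤ 720 := by decide +kernel

theorem chk_17_8_ll : ∀ i, i < 2 → ∀ j, j < 10 → 3 ≤ i + j → i + j ≤ 8 →
      (288 : ℤ) * (i.choose 2 * j : ℕ) + 72 * (i * j.choose 2 : ℕ) + 126 * (j.choose 3 : ℕ) -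
      0 * (if i = 2 then (j.choose 2 : ℤ) else 0)  +
      82 * (i * (4 - ((i : ℤ) + j))) + 118 * (j * (4 - ((i : ℤ) + j))) +
      35 * (i * (4 - 2 * ((i : ℤ) + j))) + 80 * (j * (4 - 2 * ((i : ℤ) + j))) ≤ 0 := by decide +kernel

theorem chk_18_8_cc : ∀ i, i < 3 → ∀ j, j < 11 → 3 ≤ i + j → i + j ≤ 8 →
      (27 : ℤ) * (i.choose 2 * j : ℕ) + 18 * (i * j.choose 2 : ℕ) + 9 * (j.choose 3 : ℕ) -
      0 * (if i = 2 then (j.choose 2 : ℤ) else 0) + (8 + 10) * (i * (4 - ((i : ℤ) + j))) +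
      (17 + 10) * (j * (4 - ((i : ℤ) + j))) ≤ 90 := by decide +kernel

theorem chk_18_8_cl : ∀ i, i < 3 → ∀ j, j < 11 → 3 ≤ i + j → i + j ≤ 8 →
      (27 : ℤ) * (i.choose 2 * j : ℕ) + 18 * (i * j.choose 2 : ℕ) + 9 * (j.choose 3 : ℕ) -
      0 * (if i = 2 then (j.choose 2 : ℤ) else 0) - 0 * (if i = 2 then (j : ℤ) else 0) +
      8 * (i * (4 - ((i : ℤ) + j))) + 17 * (j * (4 - ((i : ℤ) + j))) +
      10 * (i * (4 - 2 * ((i : ℤ) + j))) + 10 * (j * (4 - 2 * ((i : ℤ) + j))) ≤ 0 := by decide +kernel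

theorem chk_18_8_lc : ∀ i, i < 3 → ∀ j, j < 11 → 3 ≤ i + j → i + j ≤ 8 →
      (288 : ℤ) * (i.choose 2 * j : ℕ) + 72 * (i * j.choose 2 : ℕ) + 126 * (j.choose 3 : ℕ) -
      0 * (if i = 2 then (j.choose 2 : ℤ) else 0) + (82 + 35) * (i * (4 - ((i : ℤ) + j))) +
      (118 + 80) * (j * (4 - ((i : ℤ) + j))) ≤ 720 := by decide +kernel

theorem chk_18_8_ll : ∀ i, i < 2 → ∀ j, j < 11 → 3 ≤ i + j → i + j ≤ 8 →
      (288 : ℤ) * (i.choose 2 * j : ℕ) + 72 * (i * j.choose 2 : ℕ) + 126 * (j.choose 3 : ℕ) -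
      0 * (if i = 2 then (j.choose 2 : ℤ) else 0)  +
      82 * (i * (4 - ((i : ℤ) + j))) + 118 * (j * (4 - ((i : ℤ) + j))) +
      35 * (i * (4 - 2 * ((i : ℤ) + j))) + 80 * (j * (4 - 2 * ((i : ℤ) + j))) ≤ 0 := by decide +kernel

end Run7.h823.Circ
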