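import Mathlib
import Pool.Agent.Run7.h823.Circ.Bounds
import Pool.Agent.Run7.h823.Circ.Arith
import Pool.Agent.Run7.h823.Circ.Wt

/-! The lower bound. -/

namespace Run7.h823.Circ

open Finset Pool.Agent.Helper543.Melchior

noncomputable section

open scoped Classical

/-- the bound from one large block, first form -/
theorem bound_two {P C : Finset Pt} (h : Adm P) (hC : C ∈ blocks P) {K m : ℕ}
    (hK : C.card = K) (hm : (P \ C).card = m) (hle : ∀ G ∈ blocks P, G.card ≤ K)
    (hm1 : 1 ≤ m) :
    1 + (K.choose 2 * m : ℕ) - (m * (K / 2) : ℕ) - (m.choose 2 * (K / 2) : ℕ) ≤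
      ((circs P).card : ℤ) := by
  have hK3 : 3 ≤ K := hK ▸ three_le_block hC
  rcases mem_union.1 hC with h1 | h1
  · have := cert_circ h h1 hK hm rfl hle (s := 2) (a1 := 2) (a2 := 0) (a3 := 0) (a4 := 2)
      (a5 := 2) (b1 := 0) (b2 := 0) (b3 := 0) (b4 := 0) (by norm_num) (by norm_num) (by norm_num)
      (by norm_num) (by norm_num) (by norm_num) ?_ ?_
    · push_cast at this ⊢
      linarith
    · intro i j hi _ _ _
      have e := two_choose_two j
      interval_cases i
      · simp
      · simp
      · simp only [if_true, Nat.choose_self]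
        push_cast
        nlinarith [sq_nonneg ((j : ℤ) - 1), sq_nonneg ((j : ℤ) - 2),
          mul_nonneg (Int.natCast_nonneg j) (Int.natCast_nonneg j), e,
          show (0 : ℤ) ≤ ((j : ℤ) - 1) * ((j : ℤ) - 2) by
            rcases Nat.lt_or_ge j 2 with h | h
            · interval_cases j <;> norm_num
            · have : (2 : ℤ) ≤ j := by exact_mod_cast h
              nlinarith]
    · intro i j hi _ _ _
      interval_cases i
      · simp
      · simp
      · simp only [if_true, Nat.choose_self]
        push_cast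
        have : (0 : ℤ) ≤ (j.choose 2 : ℤ) := Int.natCast_nonneg _
        linarith
  · have := cert_lin h h1 hK hm rfl hle (s := 2) (a1 := 2) (a2 := 0) (a3 := 0) (a4 := 2)
      (b1 := 0) (b2 := 0) (b3 := 0) (b4 := 0) (by norm_num) (by norm_num)
      (by norm_num) (by norm_num) (by norm_num) ?_ ?_
    · have e : 1 ≤ m * (K / 2) := Nat.mul_pos hm1 (by omega)
      have e' : (1 : ℤ) ≤ ((m * (K / 2) : ℕ) : ℤ) := by exact_mod_cast e
      push_cast at this e' ⊢
      linarith
    · intro i j hi _ _ _
      have e := two_choose_two j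
      interval_cases i
      · simp
      · simp
      · simp only [if_true, Nat.choose_self]
        push_cast
        nlinarith [e,
          show (0 : ℤ) ≤ ((j : ℤ) - 1) * ((j : ℤ) - 2) by
            rcases Nat.lt_or_ge j 2 with h | h
            · interval_cases j <;> norm_num
            · have : (2 : ℤ) ≤ j := by exact_mod_cast h
              nlinarith]
    · intro i j hi _ _ _
      interval_cases i
      · simp
      · simp

/-- the bound from one large block, second form -/
theorem bound_three {P C : Finset Pt} (h : Adm P) (hC : C ∈ blocks P) {K m : ℕ}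
    (hK : C.card = K) (hm : (P \ C).card = m) (hle : ∀ G ∈ blocks P, G.card ≤ K)
    (hm1 : 2 ≤ m) :
    3 + 2 * (K.choose 2 * m : ℕ) - 2 * (m * (K / 2) : ℕ) - (m.choose 2 * (K / 2) : ℕ) ≤
      3 * ((circs P).card : ℤ) := by
  have hK3 : 3 ≤ K := hK ▸ three_le_block hC
  rcases mem_union.1 hC with h1 | h1
  · have := cert_circ h h1 hK hm rfl hle (s := 3) (a1 := 2) (a2 := 0) (a3 := 0) (a4 := 1)
      (a5 := 2) (b1 := 0) (b2 := 0) (b3 := 0) (b4 := 0) (by norm_num) (by norm_num) (by norm_num)
      (by norm_num) (by norm_num) (by norm_num) ?_ ?_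
    · push_cast at this ⊢
      linarith
    · intro i j hi _ _ _
      have e := two_choose_two j
      interval_cases i
      · simp
      · simp
      · simp only [if_true, Nat.choose_self]
        push_cast
        nlinarith [e,
          show (0 : ℤ) ≤ ((j : ℤ) - 2) * ((j : ℤ) - 3) by
            rcases Nat.lt_or_ge j 3 with h | h
            · interval_cases j <;> norm_num
            · have : (3 : ℤ) ≤ j := by exact_mod_cast h
              nlinarith]
    · intro i j hi _ _ _
      interval_cases i
      · simp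
      · simp
      · simp only [if_true, Nat.choose_self]
        push_cast
        have : (0 : ℤ) ≤ (j.choose 2 : ℤ) := Int.natCast_nonneg _
        linarith
  · have := cert_lin h h1 hK hm rfl hle (s := 3) (a1 := 2) (a2 := 0) (a3 := 0) (a4 := 1)
      (b1 := 0) (b2 := 0) (b3 := 0) (b4 := 0) (by norm_num) (by norm_num)
      (by norm_num) (by norm_num) (by norm_num) ?_ ?_
    · have e : 2 * 1 ≤ m * (K / 2) := Nat.mul_le_mul hm1 (by omega)
      have e' : (2 : ℤ) ≤ ((m * (K / 2) : ℕ) : ℤ) := by exact_mod_cast e
      push_cast at this e' ⊢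
      linarith
    · intro i j hi _ _ _
      have e := two_choose_two j
      interval_cases i
      · simp
      · simp
      · simp only [if_true, Nat.choose_self]
        push_cast
        nlinarith [e,
          show (0 : ℤ) ≤ ((j : ℤ) - 2) * ((j : ℤ) - 3) by
            rcases Nat.lt_or_ge j 3 with h | h
            · interval_cases j <;> norm_num
            · have : (3 : ℤ) ≤ j := by exact_mod_cast h
              nlinarith]
    · intro i j hi _ _ _
      interval_cases i
      · simp
      · simp


theorem cert_15_6 {P C : Finset Pt} (h : Adm P) (hC : C ∈ blocks P)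
    (hK : C.card = 6) (hm : (P \ C).card = 9) (hn : P.card = 15)
    (hle : ∀ G ∈ blocks P, G.card ≤ 6) : 85 ≤ (circs P).card := by
  rcases mem_union.1 hC with h1 | h1
  · have := cert_circ h h1 hK hm hn hle (s := 72) (a1 := 21) (a2 := 15) (a3 := 9)
      (a4 := 0) (a5 := 0) (b1 := 7) (b2 := 13) (b3 := 8) (b4 := 8)
      (by norm_num) (by norm_num) (by norm_num) (by norm_num) (by norm_num) (by norm_num)
      (fun i j hi hj h3 h4 => chk_15_6_cc i (by omega) j (by omega) h3 h4)
      (fun i j hi hj h3 h4 => chk_15_6_cl i (by omega) j (by omega) h3 h4)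
    norm_num [Nat.choose] at this
    omega
  · have := cert_lin h h1 hK hm hn hle (s := 72) (a1 := 27) (a2 := 9) (a3 := 15)
      (a4 := 0) (b1 := 9) (b2 := 11) (b3 := 4) (b4 := 8)
      (by norm_num) (by norm_num) (by norm_num) (by norm_num) (by norm_num)
      (fun i j hi hj h3 h4 => chk_15_6_lc i (by omega) j (by omega) h3 h4)
      (fun i j hi hj h3 h4 => chk_15_6_ll i (by omega) j (by omega) h3 h4)
    norm_num [Nat.choose] at this
    omega

theorem cert_15_7 {P C : Finset Pt} (h : Adm P) (hC : C ∈ blocks P)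
    (hK : C.card = 7) (hm : (P \ C).card = 8) (hn : P.card = 15)
    (hle : ∀ G ∈ blocks P, G.card ≤ 7) : 85 ≤ (circs P).card := by
  rcases mem_union.1 hC with h1 | h1
  · have := cert_circ h h1 hK hm hn hle (s := 261) (a1 := 89) (a2 := 64) (a3 := 39)
      (a4 := 45) (a5 := 0) (b1 := 20) (b2 := 45) (b3 := 29) (b4 := 29)
      (by norm_num) (by norm_num) (by norm_num) (by norm_num) (by norm_num) (by norm_num)
      (fun i j hi hj h3 h4 => chk_15_7_cc i (by omega) j (by omega) h3 h4)
      (fun i j hi hj h3 h4 => chk_15_7_cl i (by omega) j (by omega) h3 h4)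
    norm_num [Nat.choose] at this
    omega
  · have := cert_lin h h1 hK hm hn hle (s := 252) (a1 := 98) (a2 := 43) (a3 := 48)
      (a4 := 30) (b1 := 25) (b2 := 40) (b3 := 18) (b4 := 28)
      (by norm_num) (by norm_num) (by norm_num) (by norm_num) (by norm_num)
      (fun i j hi hj h3 h4 => chk_15_7_lc i (by omega) j (by omega) h3 h4)
      (fun i j hi hj h3 h4 => chk_15_7_ll i (by omega) j (by omega) h3 h4)
    norm_num [Nat.choose] at this
    omega

theorem cert_16_7 {P C : Finset Pt} (h : Adm P) (hC : C ∈ blocks P)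
    (hK : C.card = 7) (hm : (P \ C).card = 9) (hn : P.card = 16)
    (hle : ∀ G ∈ blocks P, G.card ≤ 7) : 99 ≤ (circs P).card := by
  rcases mem_union.1 hC with h1 | h1
  · have := cert_circ h h1 hK hm hn hle (s := 261) (a1 := 89) (a2 := 64) (a3 := 39)
      (a4 := 45) (a5 := 0) (b1 := 20) (b2 := 45) (b3 := 29) (b4 := 29)
      (by norm_num) (by norm_num) (by norm_num) (by norm_num) (by norm_num) (by norm_num)
      (fun i j hi hj h3 h4 => chk_16_7_cc i (by omega) j (by omega) h3 h4)
      (fun i j hi hj h3 h4 => chk_16_7_cl i (by omega) j (by omega) h3 h4)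
    norm_num [Nat.choose] at this
    omega
  · have := cert_lin h h1 hK hm hn hle (s := 252) (a1 := 98) (a2 := 43) (a3 := 48)
      (a4 := 30) (b1 := 25) (b2 := 40) (b3 := 18) (b4 := 28)
      (by norm_num) (by norm_num) (by norm_num) (by norm_num) (by norm_num)
      (fun i j hi hj h3 h4 => chk_16_7_lc i (by omega) j (by omega) h3 h4)
      (fun i j hi hj h3 h4 => chk_16_7_ll i (by omega) j (by omega) h3 h4)
    norm_num [Nat.choose] at this
    omega

theorem cert_16_8 {P C : Finset Pt} (h : Adm P) (hC : C ∈ blocks P)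
    (hK : C.card = 8) (hm : (P \ C).card = 8) (hn : P.card = 16)
    (hle : ∀ G ∈ blocks P, G.card ≤ 8) : 99 ≤ (circs P).card := by
  rcases mem_union.1 hC with h1 | h1
  · have := cert_circ h h1 hK hm hn hle (s := 720) (a1 := 288) (a2 := 72) (a3 := 126)
      (a4 := 0) (a5 := 0) (b1 := 37) (b2 := 118) (b3 := 80) (b4 := 80)
      (by norm_num) (by norm_num) (by norm_num) (by norm_num) (by norm_num) (by norm_num)
      (fun i j hi hj h3 h4 => chk_16_8_cc i (by omega) j (by omega) h3 h4)
      (fun i j hi hj h3 h4 => chk_16_8_cl i (by omega) j (by omega) h3 h4)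
    norm_num [Nat.choose] at this
    omega
  · have := cert_lin h h1 hK hm hn hle (s := 960) (a1 := 483) (a2 := (-3)) (a3 := 36)
      (a4 := 0) (b1 := 157) (b2 := 18) (b3 := 65) (b4 := 15)
      (by norm_num) (by norm_num) (by norm_num) (by norm_num) (by norm_num)
      (fun i j hi hj h3 h4 => chk_16_8_lc i (by omega) j (by omega) h3 h4)
      (fun i j hi hj h3 h4 => chk_16_8_ll i (by omega) j (by omega) h3 h4)
    norm_num [Nat.choose] at this
    omega

theorem cert_17_8 {P C : Finset Pt} (h : Adm P) (hC : C ∈ blocks P)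
    (hK : C.card = 8) (hm : (P \ C).card = 9) (hn : P.card = 17)
    (hle : ∀ G ∈ blocks P, G.card ≤ 8) : 113 ≤ (circs P).card := by
  rcases mem_union.1 hC with h1 | h1
  · have := cert_circ h h1 hK hm hn hle (s := 90) (a1 := 27) (a2 := 18) (a3 := 9)
      (a4 := 0) (a5 := 0) (b1 := 8) (b2 := 17) (b3 := 10) (b4 := 10)
      (by norm_num) (by norm_num) (by norm_num) (by norm_num) (by norm_num) (by norm_num)
      (fun i j hi hj h3 h4 => chk_17_8_cc i (by omega) j (by omega) h3 h4)
      (fun i j hi hj h3 h4 => chk_17_8_cl i (by omega) j (by omega) h3 h4)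
    norm_num [Nat.choose] at this
    omega
  · have := cert_lin h h1 hK hm hn hle (s := 720) (a1 := 288) (a2 := 72) (a3 := 126)
      (a4 := 0) (b1 := 82) (b2 := 118) (b3 := 35) (b4 := 80)
      (by norm_num) (by norm_num) (by norm_num) (by norm_num) (by norm_num)
      (fun i j hi hj h3 h4 => chk_17_8_lc i (by omega) j (by omega) h3 h4)
      (fun i j hi hj h3 h4 => chk_17_8_ll i (by omega) j (by omega) h3 h4)
    norm_num [Nat.choose] at this
    omega

theorem cert_18_8 {P C : Finset Pt} (h : Adm P) (hC : C ∈ blocks P)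
    (hK : C.card = 8) (hm : (P \ C).card = 10) (hn : P.card = 18)
    (hle : ∀ G ∈ blocks P, G.card ≤ 8) : 129 ≤ (circs P).card := by
  rcases mem_union.1 hC with h1 | h1
  · have := cert_circ h h1 hK hm hn hle (s := 90) (a1 := 27) (a2 := 18) (a3 := 9)
      (a4 := 0) (a5 := 0) (b1 := 8) (b2 := 17) (b3 := 10) (b4 := 10)
      (by norm_num) (by norm_num) (by norm_num) (by norm_num) (by norm_num) (by norm_num)
      (fun i j hi hj h3 h4 => chk_18_8_cc i (by omega) j (by omega) h3 h4)
      (fun i j hi hj h3 h4 => chk_18_8_cl i (by omega) j (by omega) h3 h4)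
    norm_num [Nat.choose] at this
    omega
  · have := cert_lin h h1 hK hm hn hle (s := 720) (a1 := 288) (a2 := 72) (a3 := 126)
      (a4 := 0) (b1 := 82) (b2 := 118) (b3 := 35) (b4 := 80)
      (by norm_num) (by norm_num) (by norm_num) (by norm_num) (by norm_num)
      (fun i j hi hj h3 h4 => chk_18_8_lc i (by omega) j (by omega) h3 h4)
      (fun i j hi hj h3 h4 => chk_18_8_ll i (by omega) j (by omega) h3 h4)
    norm_num [Nat.choose] at this
    omega

end

end Run7.h823.Circ
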