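import Mathlib
import Pool.Agent.Run7.h823.Circ.Lower

/-! The lower bound for the number of circles. -/

namespace Run7.h823.Circ

open Finset Pool.Agent.Helper543.Melchior

noncomputable section

open scoped Classical

lemma blocks_nonempty {P : Finset Pt} (h : Adm P) : (blocks P).Nonempty := by
  obtain ⟨x, hx, y, hy, z, hz, hxy, hxz, hyz⟩ := two_lt_card.1 (show 2 < P.card from h.1)
  exact ⟨_, blk_mem_blocks hx hy hz hxy hxz hyz⟩

theorem lower {P : Finset Pt} (h : Adm P) (hn : P.card = 4 ∨ P.card = 5 ∨ 15 ≤ P.card) :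
    F P.card ≤ (circs P).card := by
  obtain ⟨C, hC, hmax⟩ := exists_max_image (blocks P) card (blocks_nonempty h)
  obtain ⟨K, hK⟩ : ∃ K, C.card = K := ⟨_, rfl⟩
  obtain ⟨n, hcn⟩ : ∃ n, P.card = n := ⟨_, rfl⟩
  have hCP := block_subset hC
  have hK3 : 3 ≤ K := hK ▸ three_le_block hC
  have hne : C ≠ P := fun h' => h.2 (h' ▸ hC)
  have hKn : K < n := by
    rw [← hK, ← hcn]
    exact card_lt_card (hCP.ssubset_of_ne hne)
  have hm : (P \ C).card = n - K := by
    rw [card_sdiff_of_subset hCP, hK, hcn]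
  have hle : ∀ G ∈ blocks P, G.card ≤ K := fun G hG => hK ▸ hmax G hG
  have f1 := bound_one h hK3 hle
  have f2 := bound_two h hC hK hm hle (by omega)
  rw [hcn] at f1 hn ⊢
  rcases Nat.eq_or_lt_of_le (show 1 ≤ n - K by omega) with h1 | h1
  · -- `K = n - 1`
    rw [← h1] at f2
    have hK1 : n - 1 = K := by omega
    simp only [F, hK1]
    have : (1 : ℕ).choose 2 = 0 := rfl
    rw [this] at f2
    simp only [mul_one, one_mul, zero_mul] at f2
    omega
  · have f3 := bound_three h hC hK hm hle (by omega)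
    by_contra hcon
    have hc : ((circs P).card : ℤ) ≤ (F n : ℤ) - 1 := by omega
    have hKz : (3 : ℤ) ≤ K := by exact_mod_cast hK3
    rcases Nat.lt_or_ge n 30 with hlt | hge
    · by_cases hx : 19 ≤ n ∨ n = 5 ∨ (n = 15 ∧ K ≠ 6 ∧ K ≠ 7) ∨ (n = 16 ∧ K ≠ 7 ∧ K ≠ 8) ∨
          (n = 17 ∧ K ≠ 8) ∨ (n = 18 ∧ K ≠ 8)
      · rcases arith_fin n hlt K (by omega) hK3 hx with h2 | h2 | h2
        · have : 9 * (K : ℤ) * (K + 2) * (circs P).card ≤
              9 * (K : ℤ) * (K + 2) * ((F n : ℤ) - 1) :=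
            mul_le_mul_of_nonneg_left hc (by positivity)
          linarith
        · linarith
        · linarith
      · have hcase : (n = 15 ∧ K = 6) ∨ (n = 15 ∧ K = 7) ∨ (n = 16 ∧ K = 7) ∨
            (n = 16 ∧ K = 8) ∨ (n = 17 ∧ K = 8) ∨ (n = 18 ∧ K = 8) := by omega
        rcases hcase with ⟨rfl, rfl⟩ | ⟨rfl, rfl⟩ | ⟨rfl, rfl⟩ | ⟨rfl, rfl⟩ | ⟨rfl, rfl⟩ |
          ⟨rfl, rfl⟩
        · have := cert_15_6 h hC hK hm hcn hle
          exact hcon (le_trans (by decide) this)
        · have := cert_15_7 h hC hK hm hcn hle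
          exact hcon (le_trans (by decide) this)
        · have := cert_16_7 h hC hK hm hcn hle
          exact hcon (le_trans (by decide) this)
        · have := cert_16_8 h hC hK hm hcn hle
          exact hcon (le_trans (by decide) this)
        · have := cert_17_8 h hC hK hm hcn hle
          exact hcon (le_trans (by decide) this)
        · have := cert_18_8 h hC hK hm hcn hle
          exact hcon (le_trans (by decide) this)
    · have hnz : (30 : ℤ) ≤ n := by exact_mod_cast hge
      have hF : 2 * ((F n : ℤ) - 1) ≤ ((n : ℤ) - 2) ^ 2 := by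
        have e := two_choose_two (n - 1)
        have e1 : ((n - 1 : ℕ) : ℤ) = n - 1 := by omega
        rw [e1] at e
        have e2 : (F n : ℤ) = ((n - 1).choose 2 : ℤ) + 1 - ((n - 1) / 2 : ℕ) := by
          have : (n - 1) / 2 ≤ (n - 1).choose 2 + 1 := by
            have : (n - 1 : ℤ) * (n - 1 - 1) ≥ (n - 1) := by nlinarith
            omega
          simp only [F]
          omega
        have e3 : (n : ℤ) - 2 ≤ 2 * (((n - 1) / 2 : ℕ) : ℤ) := by omega
        nlinarith
      have hm' : ((n - K : ℕ) : ℤ) = (n : ℤ) - K := by omega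
      rcases le_total (16 * (K : ℤ)) (7 * n) with h2 | h2
      · have h3 := arith_one hnz hKz h2
        have h4 : 9 * (K : ℤ) * (K + 2) * (2 * (circs P).card) ≤
            9 * (K : ℤ) * (K + 2) * ((n : ℤ) - 2) ^ 2 :=
          mul_le_mul_of_nonneg_left (by linarith) (by positivity)
        linarith
      · have h3 := arith_two hnz (by omega) h2
        have e1 := two_choose_two K
        have e2 := two_choose_two (n - K)
        rw [hm'] at e2
        have e3 : 2 * (((K / 2 : ℕ)) : ℤ) ≤ K := by omega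
        push_cast [hm'] at f3
        have hKn' : (0 : ℤ) ≤ (n : ℤ) - K := by omega
        have e4 : ((n : ℤ) - K) * (2 * ((K : ℤ) / 2)) ≤ ((n : ℤ) - K) * K :=
          mul_le_mul_of_nonneg_left (by omega) hKn'
        have e5 : (0 : ℤ) ≤ ((n - K).choose 2 : ℤ) := Int.natCast_nonneg _
        have e6 : ((n - K).choose 2 : ℤ) * (2 * ((K : ℤ) / 2)) ≤ ((n - K).choose 2 : ℤ) * K :=
          mul_le_mul_of_nonneg_left (by omega) e5
        have e7 := congrArg (fun t => t * ((n : ℤ) - K)) e1
        have e8 := congrArg (fun t => t * (K : ℤ)) e2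
        have h5 : 6 * (2 * ((circs P).card : ℤ)) ≤ 6 * ((n : ℤ) - 2) ^ 2 := by linarith
        nlinarith [e4, e6, e7, e8, f3, h3, h5]

end

end Run7.h823.Circ
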