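import Mathlib
import Pool.Agent.Run7.h823.Circ.LowerMain
import Pool.Agent.Run7.h823.Circ.Bridge

/-! The two bounds in the Euclidean plane. -/

namespace Run7.h823.Circ

open Finset Pool.Agent.Helper543.Melchior

noncomputable section

open scoped Classical

/-- from coordinates to the plane -/
def ψ (x : Pt) : Plane := !₂[x.1, x.2]

lemma φ_ψ (x : Pt) : φ (ψ x) = x := by
  simp [φ, ψ]

theorem exists_plane {Q : Finset Pt} (h : Adm Q) :
    ∃ P : Finset Plane, P.card = Q.card ∧ Admissible P ∧ circleCount P = (circs Q).card := by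
  have hψi : Function.Injective ψ := Function.LeftInverse.injective φ_ψ
  have himg : (Q.image ψ).image φ = Q := by
    rw [image_image]
    have : φ ∘ ψ = id := funext φ_ψ
    rw [this, image_id]
  have hcard : (Q.image ψ).card = Q.card := card_image_of_injective _ hψi
  refine ⟨Q.image ψ, hcard, ?_, ?_⟩
  · rw [admissible_iff (by rw [hcard]; exact h.1), himg]
    exact h
  · rw [circleCount_eq, himg]

theorem upper_plane {N : ℕ} (hN : 3 ≤ N) : ∃ P : Finset Plane, P.card = N + 1 ∧ Admissible P ∧
    circleCount P ≤ N.choose 2 + 1 - N / 2 := by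
  obtain ⟨P, h1, h2, h3⟩ := exists_plane (adm_conf hN)
  rw [card_conf] at h1
  exact ⟨P, h1, h2, h3 ▸ circs_conf hN⟩

theorem lower_plane {P : Finset Plane} (h : Admissible P)
    (hn : P.card = 4 ∨ P.card = 5 ∨ 15 ≤ P.card) : F P.card ≤ circleCount P := by
  have h1 := (admissible_iff (P := P) (by omega)).1 h
  have hcard : (P.image φ).card = P.card := card_image_of_injective _ φ_inj
  have h2 := lower h1 (by rw [hcard]; exact hn)
  rw [circleCount_eq, ← hcard]
  exact h2

end

end Run7.h823.Circ
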